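import Pool.Agent.Run7.h156.ES.Core2

/-!
# The core with prescribed bits, asymptotic form
-/

set_option autoImplicit false

open Finset

namespace Run7.h156.ES

open Run7.h156.CX

/-- **The core.** -/
theorem core2 {K g k : ℕ} (p₀ : ℕ) (hK : 1 ≤ K) (hg : 2 ≤ g) {r α ε : ℝ} (hr : 0 ≤ r) (hα0 : 0 ≤ α)
    (hα : α * (g : ℝ) ^ (k + 1) < g - (r - k) * (g - 1)) (hε : 0 < ε) :
    ∃ δ : ℝ, 0 < δ ∧ ∃ m₀ : ℕ, ∀ m : ℕ, m₀ ≤ m → ∀ (Z : Type) [Fintype Z] (κ θ b : ℕ), 1 ≤ b →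
      Fintype.card Z ≤ 2 ^ b → ∀ C : WordCircuit (Fin K × Fin m) Bool Z,
      C.FanIn κ → C.TreewidthLE θ → (∀ j, (cost C j : ℝ) ≤ r * m) →
      ((κ + 1) * (θ + 1) * b : ℝ) ≤ δ * m →
      ∀ (P : Finset (Fin K × Fin m)) (c : Fin K × Fin m → Bool), P.card ≤ p₀ →
      ∃ (nm : Fin K → (Fin g → Fin ⌊α * m⌋₊ → Bool) → (Fin m → Bool))
        (X : Fin g → Finset (Fin K → Fin ⌊α * m⌋₊ → Bool)),
        (∀ j, Function.Injective (nm j)) ∧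
        (∀ x : Fin g → Fin K → Fin ⌊α * m⌋₊ → Bool, (∀ l, x l ∈ X l) →
          (fun j => nm j fun l => x l j) ∈ acceptedP C P c) ∧
        ((acceptedP C P c).card : ℝ) * 2 ^ (g * K * ⌊α * m⌋₊) ≤ 2 ^ (K * m) * (2:ℝ) ^ (ε * m) *
          ∏ l, ((X l).card : ℝ) := by
  have hgR : (2:ℝ) ≤ g := by exact_mod_cast hg
  have hKR : (1:ℝ) ≤ K := by exact_mod_cast hK
  have hg0 : (0:ℝ) < g := by linarith
  have hgp : (0:ℝ) < (g : ℝ) ^ (k + 1) := by positivity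
  obtain ⟨Δ, hΔ⟩ : ∃ Δ, Δ = (g - (r - k) * (g - 1)) / (g : ℝ) ^ (k + 1) - α := ⟨_, rfl⟩
  have hΔ0 : 0 < Δ := by
    rw [hΔ, sub_pos, lt_div_iff₀ hgp]
    exact hα
  obtain ⟨γ, hγ⟩ : ∃ γ, γ = Δ ^ 2 / (64 * K * g * (r + 1)) := ⟨_, rfl⟩
  have hγ0 : 0 < γ := by rw [hγ]; positivity
  obtain ⟨s₀, hs₀⟩ : ∃ s₀ : ℕ, s₀ = ⌈8 * K * r / γ⌉₊ + 1 := ⟨_, rfl⟩
  obtain ⟨δ, hδ⟩ : ∃ δ, δ = min (Δ / 4) ε / (2 * s₀ + 1) := ⟨_, rfl⟩
  have hδ0 : 0 < δ := by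
    rw [hδ]
    have : 0 < min (Δ / 4) ε := lt_min (by positivity) hε
    positivity
  obtain ⟨m₀, hm₀⟩ := exists_nat_gt (64 * K * g * (r + 1) / Δ ^ 2)
  obtain ⟨m₁, hm₁⟩ := exists_nat_gt (2 * p₀ / Δ)
  refine ⟨δ, hδ0, max (max m₀ m₁) 1, ?_⟩
  intro m hm Z _ κ θ b hb hZ C hκ hθ hcost hsmall P c hP
  have hm1 : 1 ≤ m := le_trans (le_max_right _ _) hm
  have hmR : (1:ℝ) ≤ m := by exact_mod_cast hm1
  have hm2 : 64 * K * g * (r + 1) / Δ ^ 2 < (m : ℝ) :=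
    hm₀.trans_le (by exact_mod_cast le_trans (le_trans (le_max_left _ _) (le_max_left _ _)) hm)
  have hm3 : 2 * (p₀ : ℝ) / Δ < (m : ℝ) :=
    hm₁.trans_le (by exact_mod_cast le_trans (le_trans (le_max_right _ _) (le_max_left _ _)) hm)
  have hPm : (P.card : ℝ) ≤ Δ / 2 * m := by
    have e1 : (P.card : ℝ) ≤ p₀ := by exact_mod_cast hP
    rw [div_lt_iff₀ hΔ0] at hm3
    linarith
  obtain ⟨R, hR⟩ : ∃ R : ℕ, R = ⌊r * m⌋₊ := ⟨_, rfl⟩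
  have hRr : (R : ℝ) ≤ r * m := by
    rw [hR]
    exact Nat.floor_le (by positivity)
  have hcR : ∀ j, cost C j ≤ R := fun j => by
    rw [hR]
    exact Nat.le_floor (hcost j)
  obtain ⟨w, hw⟩ : ∃ w : ℕ, w = ⌈γ * m⌉₊ := ⟨_, rfl⟩
  have hw1 : 1 ≤ w := by
    rw [hw]
    exact Nat.one_le_ceil_iff.2 (by positivity)
  have hwl : γ * m ≤ w := by rw [hw]; exact Nat.le_ceil _
  have hwu : (w : ℝ) ≤ γ * m + 1 := by
    rw [hw]
    exact (Nat.ceil_lt_add_one (by positivity)).le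
  obtain ⟨b₀, hb₀⟩ : ∃ b₀, b₀ = s₀ * (2 * (θ + 1)) + 1 := ⟨_, rfl⟩
  have hb₀' : (b₀ : ℝ) ≤ (2 * s₀ + 1) * (θ + 1) := by
    rw [hb₀]
    push_cast
    have : (0:ℝ) ≤ θ := Nat.cast_nonneg _
    nlinarith
  have hbR : (1:ℝ) ≤ b := by exact_mod_cast hb
  have hB : (b : ℝ) * ((κ + 1) * b₀) ≤ min (Δ / 4) ε * m := by
    have e1 : (b : ℝ) * ((κ + 1) * b₀) ≤ (2 * s₀ + 1) * ((κ + 1) * (θ + 1) * b) := by
      calc (b : ℝ) * ((κ + 1) * b₀) ≤ b * ((κ + 1) * ((2 * s₀ + 1) * (θ + 1))) := by gcongr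
        _ = _ := by ring
    have e2 : (2 * (s₀ : ℝ) + 1) * ((κ + 1) * (θ + 1) * b) ≤ (2 * s₀ + 1) * (δ * m) := by gcongr
    refine e1.trans (e2.trans (le_of_eq ?_))
    rw [hδ]
    field_simp
  have hD : (κ : ℝ) * b₀ ≤ Δ / 4 * m := by
    have e1 : (κ : ℝ) * b₀ ≤ b * ((κ + 1) * b₀) := by
      calc (κ : ℝ) * b₀ ≤ (κ + 1) * b₀ := by
            have : (0:ℝ) ≤ b₀ := Nat.cast_nonneg _
            nlinarith
        _ = 1 * ((κ + 1) * b₀) := (one_mul _).symm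
        _ ≤ _ := by gcongr
    have e2 : min (Δ / 4) ε * m ≤ Δ / 4 * m := by
      gcongr
      exact min_le_left _ _
    linarith
  have hs : ∀ s, w * s ≤ 8 * (K * R) + w → s ≤ s₀ := by
    intro s h1
    have h2 : (w : ℝ) * s ≤ 8 * (K * R) + w := by exact_mod_cast h1
    have hw0 : (0:ℝ) < w := by exact_mod_cast hw1
    have h3 : (s : ℝ) ≤ 8 * K * r / γ + 1 := by
      have h4 : (s : ℝ) ≤ (8 * (K * R) + w) / w := by
        rw [le_div_iff₀ hw0]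
        linarith
      refine h4.trans ?_
      rw [add_div, div_self hw0.ne']
      have h5 : 8 * ((K : ℝ) * R) / w ≤ 8 * K * r / γ := by
        rw [div_le_div_iff₀ hw0 hγ0]
        calc 8 * ((K : ℝ) * R) * γ ≤ 8 * (K * (r * m)) * γ := by gcongr
          _ = 8 * K * r * (γ * m) := by ring
          _ ≤ 8 * K * r * w := by gcongr
      linarith
    have h6 : (s : ℝ) ≤ s₀ := by
      refine h3.trans ?_
      rw [hs₀]
      push_cast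
      have := Nat.le_ceil (8 * (K : ℝ) * r / γ)
      linarith
    exact_mod_cast h6
  have hτ : (K : ℝ) * g * (R * w) < (Δ / 4 * m) ^ 2 := by
    have e1 : (K : ℝ) * g * (R * w) ≤ K * g * ((r * m) * (γ * m + 1)) := by gcongr
    have e2 : (K : ℝ) * g * ((r * m) * (γ * m + 1)) = K * g * r * γ * m ^ 2 + K * g * r * m := by ring
    have e3 : (K : ℝ) * g * r * γ ≤ Δ ^ 2 / 64 := by
      rw [hγ, ← mul_div_assoc, div_le_div_iff₀ (by positivity) (by norm_num)]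
      have : (0:ℝ) ≤ K * g * Δ ^ 2 := by positivity
      nlinarith
    have e4 : (K : ℝ) * g * r * m ≤ Δ ^ 2 / 64 * m ^ 2 := by
      rw [div_lt_iff₀ (by positivity)] at hm2
      have e5 : (K : ℝ) * g * r ≤ Δ ^ 2 / 64 * m := by
        have : (0:ℝ) ≤ K * g := by positivity
        nlinarith
      calc (K : ℝ) * g * r * m ≤ (Δ ^ 2 / 64 * m) * m := by gcongr
        _ = _ := by ring
    have e5 : (K : ℝ) * g * r * γ * m ^ 2 ≤ Δ ^ 2 / 64 * m ^ 2 := by gcongr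
    have e6 : 0 < Δ ^ 2 * (m : ℝ) ^ 2 := by positivity
    rw [e2] at e1
    refine e1.trans_lt ?_
    nlinarith
  have hh : ((⌊α * m⌋₊ : ℕ) : ℝ) + κ * b₀ + P.card + Δ / 4 * m ≤
      ((g : ℝ) * m - ((R : ℝ) - k * m) * (g - 1)) / (g : ℝ) ^ (k + 1) := by
    have e1 : ((⌊α * m⌋₊ : ℕ) : ℝ) ≤ α * m := Nat.floor_le (by positivity)
    have e2 : (α + Δ) * m ≤ ((g : ℝ) * m - ((R : ℝ) - k * m) * (g - 1)) / (g : ℝ) ^ (k + 1) := by
      have e3 : (α + Δ) * m = (g * m - (r * m - k * m) * (g - 1)) / (g : ℝ) ^ (k + 1) := by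
        rw [hΔ]
        field_simp
        ring
      rw [e3]
      refine div_le_div_of_nonneg_right ?_ hgp.le
      have : (0:ℝ) ≤ g - 1 := by linarith
      nlinarith
    refine le_trans ?_ e2
    have : 0 < Δ * m := by positivity
    nlinarith
  obtain ⟨nm, X, h1, h2, h3⟩ := core_finite2 hg P c C hκ hθ hZ hcR hw1 hs hb₀
    (by positivity : (0:ℝ) < Δ / 4 * m) hτ hh
  refine ⟨nm, X, h1, h2, ?_⟩
  have h4 : ((acceptedP C P c).card : ℝ) * 2 ^ (g * K * ⌊α * m⌋₊) ≤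
      2 ^ (K * m) * 2 ^ (b * ((κ + 1) * b₀)) * ∏ l, ((X l).card : ℝ) := by exact_mod_cast h3
  refine h4.trans ?_
  have h5 : (2:ℝ) ^ (b * ((κ + 1) * b₀)) ≤ (2:ℝ) ^ (ε * m) := by
    rw [← Real.rpow_natCast]
    refine Real.rpow_le_rpow_of_exponent_le (by norm_num) ?_
    push_cast
    refine hB.trans ?_
    gcongr
    exact min_le_right _ _
  gcongr

end Run7.h156.ES
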