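import Pool.Agent.Run7.h156.ES.Hyp3
import Pool.Agent.H96.BesAsy

/-!
# Sparse configurations in hypergraphs decided by circuits with few reads and small treewidth
-/

set_option autoImplicit false

open Finset

namespace Run7.h156.ES

/-- If no `e` edges have a union of size at most `(K - 2) e + 2`, then two vertices are in fewer
than `e` common edges. -/
theorem deg_le {K e m : ℕ} (hK : 2 ≤ K) (H : Finset (Finset (Fin m → Bool)))
    (hH : ∀ h ∈ H, h.card = K)
    (hfree : ∀ G ⊆ H, G.card = e → (K - 2) * e + 2 < (G.biUnion id).card)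
    (a b : Fin m → Bool) (hab : a ≠ b) : (H.filter fun h => a ∈ h ∧ b ∈ h).card ≤ e := by
  by_contra hcon
  rw [not_le] at hcon
  obtain ⟨G, hG1, hG2⟩ := exists_subset_card_eq hcon.le
  have h1 := hfree G (hG1.trans (filter_subset _ _)) hG2
  have h2 : G.biUnion id ⊆ {a, b} ∪ G.biUnion fun h => h \ {a, b} := by
    intro v hv
    obtain ⟨h, hh, hvh⟩ := mem_biUnion.1 hv
    by_cases hvab : v ∈ ({a, b} : Finset (Fin m → Bool))
    · exact mem_union_left _ hvab
    · exact mem_union_right _ (mem_biUnion.2 ⟨h, hh, mem_sdiff.2 ⟨hvh, hvab⟩⟩)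
  have h3 : ∀ h ∈ G, (h \ {a, b}).card ≤ K - 2 := by
    intro h hh
    have h4 := mem_filter.1 (hG1 hh)
    have h5 : ({a, b} : Finset (Fin m → Bool)) ⊆ h := by
      intro v hv
      rw [mem_insert, mem_singleton] at hv
      rcases hv with rfl | rfl
      · exact h4.2.1
      · exact h4.2.2
    rw [card_sdiff_of_subset h5, hH h h4.1, card_pair hab]
  have h6 := (card_le_card h2).trans ((card_union_le _ _).trans
    (Nat.add_le_add card_le_two (card_biUnion_le_card_mul _ _ _ h3)))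
  rw [hG2] at h6
  have h7 : e * (K - 2) = (K - 2) * e := mul_comm _ _
  omega

open Classical in
/-- **Sparse configurations.** -/
theorem bes (K e t : ℕ) (hK : 2 ≤ K) (s0 : Fin t) (𝒯 : Finset (Fin K → Fin t))
    (h𝒯 : 𝒯.card = e) (h𝒯' : ∑ b, (𝒯.image fun τ => Function.update τ b s0).card ≤ (K - 2) * e + 3)
    (r : ℝ) (hr : 1 ≤ r) (hr' : r * (K - 1) < K) :
    ∃ δ : ℝ, 0 < δ ∧ ∃ η : ℝ, 0 < η ∧ ∃ m₀ : ℕ, ∀ (m L : ℕ) (H : Finset (Finset (Fin m → Bool))),
      m₀ ≤ m → (∀ h ∈ H, h.card = K) → CoveredH r (δ * m) L K H →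
      (∀ G ⊆ H, G.card = e → (K - 2) * e + 3 < (G.biUnion id).card) →
      (H.card : ℝ) ≤ L * ((2:ℝ) ^ m) ^ (2 - η) := by
  obtain ⟨g, hg, α, η, hα0, hη, hα, hγ⟩ := exists_g_hyp hK hr hr'
  obtain ⟨δ, hδ, m₀, hm₀⟩ := hyp_main e hK s0 hg (by linarith) hα0 hα hη 𝒯
  refine ⟨δ, hδ, η, hη, m₀, ?_⟩
  intro m L H hm hH hcov hfree
  have h1 := hm₀ m L H hm hH hcov (fun a b hab => ?_) ?_
  · refine h1.trans (mul_le_mul_of_nonneg_left ?_ (Nat.cast_nonneg _))
    rw [← Real.rpow_natCast, ← Real.rpow_mul (by norm_num)]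
    refine Real.rpow_le_rpow_of_exponent_le (by norm_num) ?_
    rw [mul_comm (m:ℝ)]
    exact mul_le_mul_of_nonneg_right hγ (Nat.cast_nonneg _)
  · have h2 := deg_le hK H hH (fun G hG hc => by
      have h3 := hfree G hG hc
      exact lt_of_le_of_lt (Nat.le_succ _) (h3.trans_eq (biUnion_inst _ _ _))) a b hab
    exact h2
  · rintro ⟨G, g1, g2, g3⟩
    have h2 := hfree G g1 (g2.trans h𝒯)
    have h3 : (G.biUnion id).card ≤ (K - 2) * e + 3 := by
      exact le_trans (le_of_eq_of_le (biUnion_inst _ _ _) g3) h𝒯'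
    omega

end Run7.h156.ES
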