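import Mathlib

/-!
# Relations without a complete bipartite relation
-/

set_option autoImplicit false

open Finset

namespace Run7.h156.ES

/-- There are `s` different first entries and `t` different second entries such that all pairs are in
the relation. -/
def HasK {U : Type} (s t : ℕ) (X : Finset (Fin 2 → U)) : Prop :=
  ∃ (a : Fin s → U) (c : Fin t → U), Function.Injective a ∧ Function.Injective c ∧
    ∀ i j, ![a i, c j] ∈ X

variable {U : Type} [Fintype U] [DecidableEq U]

theorem pair_eta {U : Type} (x : Fin 2 → U) : ![x 0, x 1] = x := by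
  funext i
  fin_cases i <;> rfl

/-- many pairs with the same entry number `j` -/
theorem star (X : Finset (Fin 2 → U)) (t : ℕ) (h : t * Fintype.card U < X.card) (j j' : Fin 2)
    (hj : j ≠ j') :
    ∃ (x : Fin t → Fin 2 → U) (c : U), (∀ i, x i ∈ X) ∧ (∀ i, x i j = c) ∧
      Function.Injective fun i => x i j' := by
  obtain ⟨c, -, hc⟩ := exists_lt_card_fiber_of_mul_lt_card_of_maps_to
    (s := X) (t := univ) (f := fun x => x j) (n := t) (fun x _ => mem_univ _) (by
      rw [card_univ, mul_comm]
      exact h)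
  obtain ⟨e⟩ : Nonempty (Fin t ↪ {x // x ∈ X.filter fun x => x j = c}) := by
    rw [Function.Embedding.nonempty_iff_card_le, Fintype.card_fin, Fintype.card_coe]
    exact hc.le
  refine ⟨fun i => (e i).1, c, fun i => (mem_filter.1 (e i).2).1,
    fun i => (mem_filter.1 (e i).2).2, ?_⟩
  intro i i' hii
  apply e.injective
  apply Subtype.ext
  funext k
  have hk : k = j ∨ k = j' := by
    fin_cases k <;> fin_cases j <;> fin_cases j' <;> simp_all
  rcases hk with rfl | rfl
  · rw [(mem_filter.1 (e i).2).2, (mem_filter.1 (e i').2).2]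
  · exact hii

theorem card_noninj (s : ℕ) :
    (univ.filter fun a : Fin s → U => ¬ Function.Injective a).card * Fintype.card U ≤
      s ^ 2 * Fintype.card U ^ s := by
  classical
  rcases Nat.eq_zero_or_pos s with rfl | hs
  · have : (univ.filter fun a : Fin 0 → U => ¬ Function.Injective a) = ∅ := by
      rw [filter_eq_empty_iff]
      intro a _ h
      exact h fun i => i.elim0
    rw [this]
    simp
  have h1 : (univ.filter fun a : Fin s → U => ¬ Function.Injective a) ⊆
      (univ : Finset (Fin s × Fin s)).biUnion fun p =>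
        univ.filter fun a : Fin s → U => p.1 ≠ p.2 ∧ a p.1 = a p.2 := by
    intro a ha
    rw [mem_filter, Function.Injective] at ha
    have := ha.2
    push Not at this
    obtain ⟨i, j, h2, h3⟩ := this
    rw [mem_biUnion]
    exact ⟨(i, j), mem_univ _, mem_filter.2 ⟨mem_univ _, h3, h2⟩⟩
  have h2 : ∀ p : Fin s × Fin s,
      (univ.filter fun a : Fin s → U => p.1 ≠ p.2 ∧ a p.1 = a p.2).card ≤
        Fintype.card U ^ (s - 1) := by
    intro p
    by_cases hp : p.1 = p.2
    · have : (univ.filter fun a : Fin s → U => p.1 ≠ p.2 ∧ a p.1 = a p.2) = ∅ := by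
        rw [filter_eq_empty_iff]
        intro a _ h
        exact h.1 hp
      rw [this, card_empty]
      exact Nat.zero_le _
    · have e1 : Fintype.card ({k : Fin s // k ≠ p.2} → U) = Fintype.card U ^ (s - 1) := by
        rw [Fintype.card_fun, Fintype.card_subtype_compl, Fintype.card_fin,
          Fintype.card_subtype_eq]
      rw [← e1, ← card_univ]
      refine card_le_card_of_injOn (fun a k => a k.1) (fun a _ => mem_coe.2 (mem_univ _)) ?_
      intro a ha a' ha' haa
      rw [mem_coe, mem_filter] at ha ha'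
      funext k
      by_cases hk : k = p.2
      · rw [hk, ← ha.2.2, ← ha'.2.2]
        exact congrFun haa ⟨p.1, hp⟩
      · exact congrFun haa ⟨k, hk⟩
  have h3 := (card_le_card h1).trans (card_biUnion_le_card_mul _ _ _ fun p _ => h2 p)
  rw [card_univ, Fintype.card_prod, Fintype.card_fin] at h3
  calc _ ≤ (s * s * Fintype.card U ^ (s - 1)) * Fintype.card U := Nat.mul_le_mul_right _ h3
    _ = s ^ 2 * Fintype.card U ^ (s - 1 + 1) := by rw [pow_succ]; ring
    _ = _ := by rw [Nat.sub_add_cancel hs]

/-- **Kővári, Sós, Turán.** -/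
theorem kst {s t : ℕ} (hs : 1 ≤ s) (X : Finset (Fin 2 → U)) (h : ¬ HasK s t X) :
    X.card ^ s ≤ (t + s ^ 2) * Fintype.card U ^ (2 * s - 1) := by
  classical
  obtain ⟨n, hn⟩ : ∃ n, n = Fintype.card U := ⟨_, rfl⟩
  obtain ⟨d, hd⟩ : ∃ d : U → Finset U, ∀ c, d c = univ.filter fun a => ![a, c] ∈ X :=
    ⟨_, fun _ => rfl⟩
  have hX : X.card = ∑ c, (d c).card := by
    rw [card_eq_sum_card_fiberwise (f := fun x => x 1) (t := univ)
      (fun x _ => mem_coe.2 (mem_univ _))]
    refine sum_congr rfl fun c _ => ?_
    refine card_bij (fun x _ => x 0) ?_ ?_ ?_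
    · intro x hx
      rw [mem_filter] at hx
      rw [hd, mem_filter]
      refine ⟨mem_univ _, ?_⟩
      rw [← hx.2, pair_eta]
      exact hx.1
    · intro x hx x' hx' hxx
      rw [mem_filter] at hx hx'
      rw [← pair_eta x, ← pair_eta x', hxx, hx.2, hx'.2]
    · intro a ha
      rw [hd, mem_filter] at ha
      exact ⟨![a, c], mem_filter.2 ⟨ha.2, rfl⟩, rfl⟩
  -- tuples
  have h1 : ∑ c, (d c).card ^ s = ∑ a : Fin s → U, (univ.filter fun c => ∀ i, ![a i, c] ∈ X).card := by
    have e1 : ∀ c, (d c).card ^ s = (univ.filter fun a : Fin s → U => ∀ i, ![a i, c] ∈ X).card := by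
      intro c
      have e2 : (univ.filter fun a : Fin s → U => ∀ i, ![a i, c] ∈ X) =
          Fintype.piFinset fun _ : Fin s => d c := by
        ext a
        rw [mem_filter, Fintype.mem_piFinset]
        simp only [hd, mem_filter, mem_univ, true_and]
      rw [e2, Fintype.card_piFinset, prod_const, card_univ, Fintype.card_fin]
    rw [sum_congr rfl fun c _ => e1 c]
    have e3 := sum_card_bipartiteAbove_eq_sum_card_bipartiteBelow
      (s := (univ : Finset (Fin s → U))) (t := (univ : Finset U))
      (fun a c => ∀ i, ![a i, c] ∈ X)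
    unfold bipartiteAbove bipartiteBelow at e3
    exact e3.symm
  have h2 : ∀ a : Fin s → U, (univ.filter fun c => ∀ i, ![a i, c] ∈ X).card ≤
      t + if Function.Injective a then 0 else n := by
    intro a
    split_ifs with ha
    · rw [add_zero]
      by_contra hcon
      push Not at hcon
      obtain ⟨e⟩ : Nonempty (Fin t ↪ {c // c ∈ univ.filter fun c => ∀ i, ![a i, c] ∈ X}) := by
        rw [Function.Embedding.nonempty_iff_card_le, Fintype.card_fin, Fintype.card_coe]
        exact hcon.le
      exact h ⟨a, fun j => (e j).1, ha, fun j j' hjj => e.injective (Subtype.ext hjj),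
        fun i j => (mem_filter.1 (e j).2).2 i⟩
    · refine (card_le_univ _).trans ?_
      rw [← hn]
      exact Nat.le_add_left _ _
  have h3 : ∑ c, (d c).card ^ s ≤ (t + s ^ 2) * n ^ s := by
    rw [h1]
    refine (sum_le_sum fun a _ => h2 a).trans ?_
    rw [sum_add_distrib, sum_const, card_univ, Fintype.card_fun, Fintype.card_fin, smul_eq_mul,
      ← hn]
    have e1 : ∑ a : Fin s → U, (if Function.Injective a then 0 else n) =
        (univ.filter fun a : Fin s → U => ¬ Function.Injective a).card * n := by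
      rw [sum_ite, sum_const_zero, zero_add, sum_const, smul_eq_mul]
    rw [e1]
    have e2 := card_noninj (U := U) s
    rw [← hn] at e2
    rw [add_mul, mul_comm t]
    have : n ^ s * t = t * n ^ s := mul_comm _ _
    omega
  rcases Nat.eq_zero_or_pos n with h0 | h0
  · have hX0 : X.card = 0 := by
      rw [hX]
      have : IsEmpty U := Fintype.card_eq_zero_iff.1 (hn.symm.trans h0)
      exact sum_eq_zero fun c _ => this.elim c
    rw [hX0, zero_pow (by omega)]
    exact Nat.zero_le _
  obtain ⟨q, hq⟩ : ∃ q, s = q + 1 := ⟨s - 1, by omega⟩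
  have h4 : (∑ c, ((d c).card : ℝ)) ^ (q + 1) / ((univ : Finset U).card : ℝ) ^ q ≤
      ∑ c, ((d c).card : ℝ) ^ (q + 1) :=
    pow_sum_div_card_le_sum_pow (fun c _ => Nat.cast_nonneg _) q
  rw [card_univ, ← hn, div_le_iff₀ (by positivity)] at h4
  have h5 : ((X.card : ℝ)) ^ s ≤ ((t + s ^ 2) * n ^ s) * n ^ q := by
    rw [hX, hq]
    push_cast
    refine h4.trans ?_
    rw [hq] at h3
    have : (∑ c, ((d c).card : ℝ) ^ (q + 1)) ≤ (t + (q + 1 : ℝ) ^ 2) * (n : ℝ) ^ (q + 1) := by
      exact_mod_cast h3
    gcongr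
  have h6 : X.card ^ s ≤ ((t + s ^ 2) * n ^ s) * n ^ q := by exact_mod_cast h5
  refine h6.trans (le_of_eq ?_)
  rw [← hn, mul_assoc, ← pow_add]
  congr 2
  omega

end Run7.h156.ES
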