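import Pool.Agent.Run7.h156.ES.Asym
import Pool.Agent.Run7.h156.ES.Kst

/-!
# Relations between two strings decided by circuits with few reads and small treewidth
-/

set_option autoImplicit false

open Finset

namespace Run7.h156.ES

open Run7.h156.CX

theorem HasK.mono {U : Type} {s s' t t' : ℕ} {X : Finset (Fin 2 → U)} (hs : s' ≤ s) (ht : t' ≤ t)
    (h : HasK s t X) : HasK s' t' X := by
  obtain ⟨a, c, ha, hc, hac⟩ := h
  exact ⟨fun i => a (Fin.castLE hs i), fun j => c (Fin.castLE ht j),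
    ha.comp (Fin.castLE_injective hs), hc.comp (Fin.castLE_injective ht), fun i j => hac _ _⟩

/-- The product sets in a relation without complete bipartite relation are small. -/
theorem bip_product {h m s t : ℕ} (hs : 1 ≤ s) (hst : s ≤ t)
    (nm : Fin 2 → (Fin 2 → Fin h → Bool) → (Fin m → Bool)) (hnm : ∀ j, Function.Injective (nm j))
    (X : Fin 2 → Finset (Fin 2 → Fin h → Bool)) (S : Finset (Fin 2 → Fin m → Bool))
    (hX : ∀ x : Fin 2 → Fin 2 → Fin h → Bool, (∀ l, x l ∈ X l) →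
      (fun j => nm j fun l => x l j) ∈ S) (hS : ¬ HasK s t S) :
    (∏ l, (X l).card) ^ s ≤ t ^ s * (t + s ^ 2) * (2 ^ h) ^ (3 * s - 1) := by
  classical
  have hU : Fintype.card (Fin h → Bool) = 2 ^ h := by
    rw [Fintype.card_fun, Fintype.card_bool, Fintype.card_fin]
  have hglue : ∀ x ∈ X 0, ∀ y ∈ X 1, ![nm 0 ![x 0, y 0], nm 1 ![x 1, y 1]] ∈ S := by
    intro x hx y hy
    have h1 := hX ![x, y] (by
      intro l
      fin_cases l
      · exact hx
      · exact hy)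
    have h2 : (fun j => nm j fun l => (![x, y] : Fin 2 → Fin 2 → Fin h → Bool) l j) =
        ![nm 0 ![x 0, y 0], nm 1 ![x 1, y 1]] := by
      funext j
      fin_cases j
      · show nm 0 _ = nm 0 _
        congr 1
        funext l
        fin_cases l <;> rfl
      · show nm 1 _ = nm 1 _
        congr 1
        funext l
        fin_cases l <;> rfl
    rw [← h2]
    exact h1
  have hv0 : ∀ {a a' c c' : Fin h → Bool}, (![a, c] : Fin 2 → Fin h → Bool) = ![a', c'] →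
      a = a' ∧ c = c' := by
    intro a a' c c' he
    exact ⟨congrFun he 0, congrFun he 1⟩
  -- one of the sets is small
  have hsmall : ∀ (l l' : Fin 2), l ≠ l' → (X l).card ≤ t * 2 ^ h →
      ((X l).card * (X l').card) ^ s ≤ t ^ s * (t + s ^ 2) * (2 ^ h) ^ (3 * s - 1) := by
    intro l l' hll hl
    rcases Finset.eq_empty_or_nonempty (X l) with he | ⟨x₀, hx₀⟩
    · rw [he, card_empty, zero_mul, zero_pow (by omega)]
      exact Nat.zero_le _
    · have h1 : ¬ HasK s t (X l') := by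
        rintro ⟨a, c, ha, hc, hac⟩
        apply hS
        have hcase : (l = 0 ∧ l' = 1) ∨ (l = 1 ∧ l' = 0) := by
          fin_cases l <;> fin_cases l' <;> simp_all
        rcases hcase with ⟨rfl, rfl⟩ | ⟨rfl, rfl⟩
        · refine ⟨fun i => nm 0 ![x₀ 0, a i], fun j => nm 1 ![x₀ 1, c j], ?_, ?_, ?_⟩
          · intro i i' hii
            exact ha (hv0 (hnm 0 hii)).2
          · intro i i' hii
            exact hc (hv0 (hnm 1 hii)).2
          · intro i j
            exact hglue x₀ hx₀ _ (hac i j)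
        · refine ⟨fun i => nm 0 ![a i, x₀ 0], fun j => nm 1 ![c j, x₀ 1], ?_, ?_, ?_⟩
          · intro i i' hii
            exact ha (hv0 (hnm 0 hii)).1
          · intro i i' hii
            exact hc (hv0 (hnm 1 hii)).1
          · intro i j
            exact hglue _ (hac i j) x₀ hx₀
      have h2 := kst hs (X l') h1
      rw [hU] at h2
      calc ((X l).card * (X l').card) ^ s = (X l).card ^ s * (X l').card ^ s := mul_pow _ _ _
        _ ≤ (t * 2 ^ h) ^ s * ((t + s ^ 2) * (2 ^ h) ^ (2 * s - 1)) :=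
            Nat.mul_le_mul (Nat.pow_le_pow_left hl _) h2
        _ = t ^ s * (t + s ^ 2) * ((2 ^ h) ^ s * (2 ^ h) ^ (2 * s - 1)) := by
            rw [mul_pow]
            ring
        _ = _ := by
            rw [← pow_add]
            congr 2
            omega
  rw [Fin.prod_univ_two]
  by_cases h0 : (X 0).card ≤ t * 2 ^ h
  · exact hsmall 0 1 (by decide) h0
  by_cases h1 : (X 1).card ≤ t * 2 ^ h
  · rw [mul_comm (X 0).card]
    exact hsmall 1 0 (by decide) h1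
  exfalso
  push Not at h0 h1
  rw [← hU] at h0 h1
  obtain ⟨x, c, hx1, hx2, hx3⟩ := star (X 0) t h0 1 0 (by decide)
  obtain ⟨y, a, hy1, hy2, hy3⟩ := star (X 1) t h1 0 1 (by decide)
  apply hS
  have h2 : HasK t t S := by
    refine ⟨fun i => nm 0 ![x i 0, a], fun j => nm 1 ![c, y j 1], ?_, ?_, ?_⟩
    · intro i i' hii
      exact hx3 (hv0 (hnm 0 hii)).1
    · intro i i' hii
      exact hy3 (hv0 (hnm 1 hii)).2
    · intro i j
      have := hglue (x i) (hx1 i) (y j) (hy1 j)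
      rw [hx2, hy2] at this
      exact this
  exact h2.mono hst le_rfl

/-- **Relations without `K_{s,t}`.** -/
theorem bip {s t k : ℕ} (hs : 1 ≤ s) (hst : s ≤ t) {r α ε : ℝ} (hr : 0 ≤ r) (hα0 : 0 ≤ α)
    (hα : α * 2 ^ (k + 1) < k + 2 - r) (hε : 0 < ε) :
    ∃ δ : ℝ, 0 < δ ∧ ∃ m₀ : ℕ, ∀ m : ℕ, m₀ ≤ m → ∀ (Z : Type) [Fintype Z] (κ θ b : ℕ), 1 ≤ b →
      Fintype.card Z ≤ 2 ^ b → ∀ C : WordCircuit (Fin 2 × Fin m) Bool Z,
      C.FanIn κ → C.TreewidthLE θ → (∀ j, (cost C j : ℝ) ≤ r * m) →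
      ((κ + 1) * (θ + 1) * b : ℝ) ≤ δ * m → ¬ HasK s t (accepted C) →
      ((accepted C).card : ℝ) ≤ (2:ℝ) ^ ((2 - (1 + 1 / s) * α + ε) * m) := by
  obtain ⟨δ, hδ, m₀, hm₀⟩ := core (K := 2) (g := 2) (k := k) (by norm_num) le_rfl hr hα0
    (by
      have : ((2 : ℕ) : ℝ) - (r - k) * (((2 : ℕ) : ℝ) - 1) = k + 2 - r := by push_cast; ring
      rw [this]
      push_cast
      exact hα) (half_pos hε)
  obtain ⟨c, hc⟩ : ∃ c : ℝ, c = (t : ℝ) ^ s * (t + s ^ 2) := ⟨_, rfl⟩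
  have hs0 : (0:ℝ) < s := by exact_mod_cast hs
  have ht0 : (0:ℝ) < t := by exact_mod_cast (lt_of_lt_of_le hs hst)
  have hc0 : 0 < c := by rw [hc]; positivity
  obtain ⟨m₁, hm₁⟩ := exists_nat_gt ((Real.logb 2 c + (s + 1)) / (ε / 2 * s))
  refine ⟨δ, hδ, max m₀ m₁, ?_⟩
  intro m hm Z _ κ θ b hb hZ C hκ hθ hcost hsmall hK
  obtain ⟨nm, X, h1, h2, h3⟩ := hm₀ m (le_trans (le_max_left _ _) hm) Z κ θ b hb hZ C hκ hθ
    hcost hsmall
  have h4 := bip_product hs hst nm h1 X (accepted C) h2 hK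
  have hcast : ((∏ l, (X l).card : ℕ) : ℝ) = ∏ l, ((X l).card : ℝ) := by push_cast; rfl
  obtain ⟨Q, hQ⟩ : ∃ Q : ℕ, Q = ∏ l, (X l).card := ⟨_, rfl⟩
  rw [← hcast, ← hQ] at h3
  rw [← hQ] at h4
  obtain ⟨h, hh⟩ : ∃ h, h = ⌊α * m⌋₊ := ⟨_, rfl⟩
  rw [← hh] at h3 h4
  have hmR : (m₁ : ℝ) ≤ m := by exact_mod_cast le_trans (le_max_right _ _) hm
  have hm2 : Real.logb 2 c + (s + 1) < ε / 2 * s * m := by
    rw [div_lt_iff₀ (by positivity)] at hm₁
    have : (m₁ : ℝ) * (ε / 2 * s) ≤ m * (ε / 2 * s) := by gcongr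
    linarith
  have hhl : α * m - 1 ≤ h := by
    rw [hh]
    exact (Nat.sub_one_lt_floor _).le
  obtain ⟨A, hA⟩ : ∃ A : ℝ, A = (accepted C).card := ⟨_, rfl⟩
  obtain ⟨P, hP⟩ : ∃ P : ℝ, P = Q := ⟨_, rfl⟩
  have hA0 : 0 ≤ A := by rw [hA]; exact Nat.cast_nonneg _
  have hP0 : 0 ≤ P := by rw [hP]; exact Nat.cast_nonneg _
  rw [← hA, ← hP] at h3
  rw [← hA]
  have h5 : P ^ s ≤ c * (2:ℝ) ^ ((h : ℝ) * (3 * s - 1)) := by
    have e1 : (Q : ℝ) ^ s ≤ (t : ℝ) ^ s * (t + s ^ 2) * (2 ^ h) ^ (3 * s - 1) := by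
      exact_mod_cast h4
    rw [hP, hc]
    refine e1.trans (le_of_eq ?_)
    congr 1
    rw [← pow_mul, ← Real.rpow_natCast]
    congr 1
    have : 1 ≤ 3 * s := by omega
    push_cast [Nat.cast_sub this]
    ring
  have h6 : (A * (2:ℝ) ^ ((4:ℝ) * h)) ^ s ≤
      ((2:ℝ) ^ ((2 + ε / 2) * m)) ^ s * (c * (2:ℝ) ^ ((h : ℝ) * (3 * s - 1))) := by
    have e1 : A * (2:ℝ) ^ ((4:ℝ) * h) ≤ (2:ℝ) ^ ((2 + ε / 2) * m) * P := by
      have e2 : (2:ℝ) ^ ((4:ℝ) * h) = 2 ^ (2 * 2 * h) := by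
        rw [← Real.rpow_natCast]
        congr 1
        push_cast
        ring
      have e3 : (2:ℝ) ^ ((2 + ε / 2) * m) = 2 ^ (2 * m) * (2:ℝ) ^ (ε / 2 * m) := by
        rw [← Real.rpow_natCast, ← Real.rpow_add (by norm_num)]
        congr 1
        push_cast
        ring
      rw [e2, e3]
      exact h3
    calc (A * (2:ℝ) ^ ((4:ℝ) * h)) ^ s ≤ ((2:ℝ) ^ ((2 + ε / 2) * m) * P) ^ s :=
          pow_le_pow_left₀ (by positivity) e1 _
      _ = ((2:ℝ) ^ ((2 + ε / 2) * m)) ^ s * P ^ s := mul_pow _ _ _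
      _ ≤ _ := by gcongr
  have h7 : A ^ s ≤ ((2:ℝ) ^ ((2 - (1 + 1 / s) * α + ε) * m)) ^ s := by
    have e1 : (0:ℝ) < ((2:ℝ) ^ ((4:ℝ) * h)) ^ s := by positivity
    refine le_of_mul_le_mul_right ?_ e1
    rw [← mul_pow]
    refine h6.trans ?_
    have e2 : c = (2:ℝ) ^ (Real.logb 2 c) := (Real.rpow_logb (by norm_num) (by norm_num) hc0).symm
    rw [e2, ← Real.rpow_natCast, ← Real.rpow_natCast, ← Real.rpow_natCast, ← Real.rpow_mul (by norm_num),
      ← Real.rpow_mul (by norm_num), ← Real.rpow_mul (by norm_num), ← Real.rpow_add (by norm_num),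
      ← Real.rpow_add (by norm_num), ← Real.rpow_add (by norm_num)]
    refine Real.rpow_le_rpow_of_exponent_le (by norm_num) ?_
    have e3 : (2 - (1 + 1 / (s : ℝ)) * α + ε) * m * s =
        (2 * s - (s + 1) * α + ε * s) * m := by
      field_simp
    rw [e3]
    have e4 : (α * m - 1) * (s + 1) ≤ h * ((s : ℝ) + 1) := by gcongr
    nlinarith
  exact le_of_pow_le_pow_left₀ (by omega) (by positivity) h7

end Run7.h156.ES
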