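import Pool.Agent.Run7.h156.ES.Bip

/-!
# Relations between two strings decided by circuits with few reads and small treewidth: any number
of groups
-/

set_option autoImplicit false

open Finset

namespace Run7.h156.ES

open Run7.h156.CX

/-- The product sets in a relation without complete bipartite relation are small. -/
theorem prod_g {g h m s t : ℕ} (hg : 1 ≤ g) (hs : 1 ≤ s) (hst : s ≤ t)
    (nm : Fin 2 → (Fin g → Fin h → Bool) → (Fin m → Bool)) (hnm : ∀ j, Function.Injective (nm j))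
    (X : Fin g → Finset (Fin 2 → Fin h → Bool)) (S : Finset (Fin 2 → Fin m → Bool))
    (hX : ∀ x : Fin g → Fin 2 → Fin h → Bool, (∀ l, x l ∈ X l) →
      (fun j => nm j fun l => x l j) ∈ S) (hS : ¬ HasK s t S) :
    (∏ l, (X l).card) ^ s ≤ (t ^ (g - 1)) ^ s * (t + s ^ 2) * (2 ^ h) ^ ((g + 1) * s - 1) := by
  classical
  have hU : Fintype.card (Fin h → Bool) = 2 ^ h := by
    rw [Fintype.card_fun, Fintype.card_bool, Fintype.card_fin]
  by_cases hne : ∃ l, (X l).card = 0
  · obtain ⟨l, hl⟩ := hne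
    rw [prod_eq_zero (mem_univ l) hl, zero_pow (by omega)]
    exact Nat.zero_le _
  push Not at hne
  have hne' : ∀ l, ∃ x, x ∈ X l := fun l => by
    obtain ⟨x, hx⟩ := card_pos.1 (Nat.pos_of_ne_zero (hne l))
    exact ⟨x, hx⟩
  choose x₀ hx₀ using hne'
  have ht : 1 ≤ t := hs.trans hst
  -- at most one of the sets is large
  have hA : ∀ l₁ l₂, l₁ ≠ l₂ → t * 2 ^ h < (X l₁).card → t * 2 ^ h < (X l₂).card → False := by
    intro l₁ l₂ hl h1 h2
    rw [← hU] at h1 h2
    obtain ⟨x, a, hx1, hx2, hx3⟩ := star (X l₁) t h1 1 0 (by decide)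
    obtain ⟨y, c, hy1, hy2, hy3⟩ := star (X l₂) t h2 0 1 (by decide)
    apply hS
    obtain ⟨z, hz⟩ : ∃ z : Fin t → Fin t → Fin g → Fin 2 → Fin h → Bool, ∀ i j, z i j =
      Function.update (Function.update x₀ l₁ (x i)) l₂ (y j) := ⟨_, fun _ _ => rfl⟩
    have hz1 : ∀ i j, z i j l₁ = x i := fun i j => by
      rw [hz, Function.update_of_ne hl, Function.update_self]
    have hz2 : ∀ i j, z i j l₂ = y j := fun i j => by
      rw [hz, Function.update_self]
    have hz3 : ∀ i j l, l ≠ l₁ → l ≠ l₂ → z i j l = x₀ l := fun i j l h3 h4 => by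
      rw [hz, Function.update_of_ne h4, Function.update_of_ne h3]
    have hzX : ∀ i j l, z i j l ∈ X l := by
      intro i j l
      by_cases h3 : l = l₂
      · rw [h3, hz2]
        exact hy1 j
      · by_cases h4 : l = l₁
        · rw [h4, hz1]
          exact hx1 i
        · rw [hz3 i j l h4 h3]
          exact hx₀ l
    have j₀ : Fin t := ⟨0, ht⟩
    have hK : HasK t t S := by
      refine ⟨fun i => nm 0 fun l => z i j₀ l 0, fun j => nm 1 fun l => z j₀ j l 1, ?_, ?_, ?_⟩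
      · intro i i' hii
        have h3 := congrFun (hnm 0 hii) l₁
        simp only [hz1] at h3
        exact hx3 h3
      · intro j j' hjj
        have h3 := congrFun (hnm 1 hjj) l₂
        simp only [hz2] at h3
        exact hy3 h3
      · intro i j
        have h3 := hX (z i j) (hzX i j)
        have h4 : (fun jj => nm jj fun l => z i j l jj) =
            ![nm 0 fun l => z i j₀ l 0, nm 1 fun l => z j₀ j l 1] := by
          rw [← pair_eta (fun jj => nm jj fun l => z i j l jj)]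
          congr 1
          · congr 1
            funext l
            by_cases h5 : l = l₂
            · rw [h5, hz2, hz2, hy2, hy2]
            · by_cases h6 : l = l₁
              · rw [h6, hz1, hz1]
              · rw [hz3 i j l h6 h5, hz3 i j₀ l h6 h5]
          · congr 1
            congr 1
            funext l
            by_cases h5 : l = l₂
            · rw [h5, hz2, hz2]
            · by_cases h6 : l = l₁
              · rw [h6, hz1, hz1, hx2, hx2]
              · rw [hz3 i j l h6 h5, hz3 j₀ j l h6 h5]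
        rw [← h4]
        exact h3
    exact hK.mono hst le_rfl
  -- a set with the bound for relations
  have hB : ∀ l₀, ¬ HasK s t (X l₀) := by
    rintro l₀ ⟨a, c, ha, hc, hac⟩
    apply hS
    have hv0 : ∀ l i j, (Function.update x₀ l₀ ![a i, c j]) l ∈ X l := by
      intro l i j
      by_cases h3 : l = l₀
      · rw [h3, Function.update_self]
        exact hac i j
      · rw [Function.update_of_ne h3]
        exact hx₀ l
    have i₀ : Fin s := ⟨0, hs⟩
    have j₀ : Fin t := ⟨0, ht⟩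
    refine ⟨fun i => nm 0 fun l => (Function.update x₀ l₀ ![a i, c j₀]) l 0,
      fun j => nm 1 fun l => (Function.update x₀ l₀ ![a i₀, c j]) l 1, ?_, ?_, ?_⟩
    · intro i i' hii
      have h3 := congrFun (hnm 0 hii) l₀
      simp only [Function.update_self] at h3
      exact ha h3
    · intro i i' hii
      have h3 := congrFun (hnm 1 hii) l₀
      simp only [Function.update_self] at h3
      exact hc h3
    · intro i j
      have h3 := hX (Function.update x₀ l₀ ![a i, c j]) (fun l => hv0 l i j)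
      have h4 : (fun jj => nm jj fun l => (Function.update x₀ l₀ ![a i, c j]) l jj) =
          ![nm 0 fun l => (Function.update x₀ l₀ ![a i, c j₀]) l 0,
            nm 1 fun l => (Function.update x₀ l₀ ![a i₀, c j]) l 1] := by
        rw [← pair_eta (fun jj => nm jj fun l => (Function.update x₀ l₀ ![a i, c j]) l jj)]
        congr 1
        · congr 1
          funext l
          by_cases h5 : l = l₀
          · rw [h5, Function.update_self, Function.update_self]
            rfl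
          · rw [Function.update_of_ne h5, Function.update_of_ne h5]
        · congr 1
          congr 1
          funext l
          by_cases h5 : l = l₀
          · rw [h5, Function.update_self, Function.update_self]
            rfl
          · rw [Function.update_of_ne h5, Function.update_of_ne h5]
      rw [← h4]
      exact h3
  -- the exceptional set
  obtain ⟨l₀, hl₀⟩ : ∃ l₀, ∀ l, l ≠ l₀ → (X l).card ≤ t * 2 ^ h := by
    by_contra hcon
    push Not at hcon
    obtain ⟨l₁, _, h1⟩ := hcon ⟨0, hg⟩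
    obtain ⟨l₂, h2, h3⟩ := hcon l₁
    exact hA l₂ l₁ h2 h3 h1
  have h1 : (∏ l, (X l).card) ≤ (X l₀).card * (t * 2 ^ h) ^ (g - 1) := by
    rw [← mul_prod_erase univ (fun l => (X l).card) (mem_univ l₀)]
    refine Nat.mul_le_mul_left _ ?_
    have h2 : ∏ l ∈ univ.erase l₀, (X l).card ≤ ∏ _l ∈ univ.erase l₀, t * 2 ^ h :=
      prod_le_prod' fun l hl => hl₀ l (mem_erase.1 hl).1
    rw [prod_const, card_erase_of_mem (mem_univ _), card_univ, Fintype.card_fin] at h2
    exact h2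
  have h2 := kst hs (X l₀) (hB l₀)
  rw [hU] at h2
  calc (∏ l, (X l).card) ^ s ≤ ((X l₀).card * (t * 2 ^ h) ^ (g - 1)) ^ s :=
        Nat.pow_le_pow_left h1 _
    _ = (X l₀).card ^ s * ((t * 2 ^ h) ^ (g - 1)) ^ s := mul_pow _ _ _
    _ ≤ ((t + s ^ 2) * (2 ^ h) ^ (2 * s - 1)) * ((t * 2 ^ h) ^ (g - 1)) ^ s :=
        Nat.mul_le_mul_right _ h2
    _ = (t ^ (g - 1)) ^ s * (t + s ^ 2) * ((2 ^ h) ^ (2 * s - 1) * (2 ^ h) ^ ((g - 1) * s)) := by
        rw [mul_pow, mul_pow, pow_mul]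
        ring
    _ = _ := by
        rw [← pow_add]
        congr 2
        obtain ⟨g', rfl⟩ : ∃ g', g = g' + 1 := ⟨g - 1, by omega⟩
        rw [Nat.add_sub_cancel]
        have : (g' + 1 + 1) * s = g' * s + 2 * s := by ring
        omega

/-- **Relations without `K_{s,t}`.** -/
theorem bipg {s t g k : ℕ} (hs : 1 ≤ s) (hst : s ≤ t) (hg : 2 ≤ g) {r α ε : ℝ} (hr : 0 ≤ r)
    (hα0 : 0 ≤ α) (hα : α * (g:ℝ) ^ (k + 1) < g - (r - k) * (g - 1)) (hε : 0 < ε) :
    ∃ δ : ℝ, 0 < δ ∧ ∃ m₀ : ℕ, ∀ m : ℕ, m₀ ≤ m → ∀ (Z : Type) [Fintype Z] (κ θ b : ℕ), 1 ≤ b →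
      Fintype.card Z ≤ 2 ^ b → ∀ C : WordCircuit (Fin 2 × Fin m) Bool Z,
      C.FanIn κ → C.TreewidthLE θ → (∀ j, (cost C j : ℝ) ≤ r * m) →
      ((κ + 1) * (θ + 1) * b : ℝ) ≤ δ * m → ¬ HasK s t (accepted C) →
      ((accepted C).card : ℝ) ≤ (2:ℝ) ^ ((2 - (g - 1 + 1 / s) * α + ε) * m) := by
  obtain ⟨δ, hδ, m₀, hm₀⟩ := core (K := 2) (g := g) (k := k) (by norm_num) hg hr hα0
    hα (half_pos hε)
  obtain ⟨c, hc⟩ : ∃ c : ℝ, c = ((t : ℝ) ^ (g - 1)) ^ s * (t + s ^ 2) := ⟨_, rfl⟩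
  have hs0 : (0:ℝ) < s := by exact_mod_cast hs
  have ht0 : (0:ℝ) < t := by exact_mod_cast (lt_of_lt_of_le hs hst)
  have hg0 : (2:ℝ) ≤ g := by exact_mod_cast hg
  have hc0 : 0 < c := by rw [hc]; positivity
  obtain ⟨e, he⟩ : ∃ e : ℝ, e = (g - 1) * s + 1 := ⟨_, rfl⟩
  have he0 : 0 ≤ e := by
    rw [he]
    nlinarith
  obtain ⟨m₁, hm₁⟩ := exists_nat_gt ((Real.logb 2 c + e) / (ε / 2 * s))
  refine ⟨δ, hδ, max m₀ m₁, ?_⟩
  intro m hm Z _ κ θ b hb hZ C hκ hθ hcost hsmall hK
  obtain ⟨nm, X, h1, h2, h3⟩ := hm₀ m (le_trans (le_max_left _ _) hm) Z κ θ b hb hZ C hκ hθ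
    hcost hsmall
  have h4 := prod_g (by omega) hs hst nm h1 X (accepted C) h2 hK
  have hcast : ((∏ l, (X l).card : ℕ) : ℝ) = ∏ l, ((X l).card : ℝ) := by push_cast; rfl
  obtain ⟨Q, hQ⟩ : ∃ Q : ℕ, Q = ∏ l, (X l).card := ⟨_, rfl⟩
  rw [← hcast, ← hQ] at h3
  rw [← hQ] at h4
  obtain ⟨h, hh⟩ : ∃ h, h = ⌊α * m⌋₊ := ⟨_, rfl⟩
  rw [← hh] at h3 h4
  have hmR : (m₁ : ℝ) ≤ m := by exact_mod_cast le_trans (le_max_right _ _) hm
  have hm2 : Real.logb 2 c + e < ε / 2 * s * m := by
    rw [div_lt_iff₀ (by positivity)] at hm₁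
    have : (m₁ : ℝ) * (ε / 2 * s) ≤ m * (ε / 2 * s) := by gcongr
    linarith
  have hhl : α * m - 1 ≤ h := by
    rw [hh]
    exact (Nat.sub_one_lt_floor _).le
  obtain ⟨A, hA⟩ : ∃ A : ℝ, A = (accepted C).card := ⟨_, rfl⟩
  obtain ⟨P, hP⟩ : ∃ P : ℝ, P = Q := ⟨_, rfl⟩
  have hA0 : 0 ≤ A := by rw [hA]; exact Nat.cast_nonneg _
  have hP0 : 0 ≤ P := by rw [hP]; exact Nat.cast_nonneg _
  rw [← hA, ← hP] at h3
  rw [← hA]
  have h5 : P ^ s ≤ c * (2:ℝ) ^ ((h : ℝ) * ((g + 1) * s - 1)) := by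
    have e1 : (Q : ℝ) ^ s ≤ ((t : ℝ) ^ (g - 1)) ^ s * (t + s ^ 2) * (2 ^ h) ^ ((g + 1) * s - 1) := by
      exact_mod_cast h4
    rw [hP, hc]
    refine e1.trans (le_of_eq ?_)
    congr 1
    rw [← pow_mul, ← Real.rpow_natCast]
    congr 1
    have : 1 ≤ (g + 1) * s := Nat.mul_pos (by omega) hs
    push_cast [Nat.cast_sub this]
    ring
  have h6 : (A * (2:ℝ) ^ ((2:ℝ) * g * h)) ^ s ≤
      ((2:ℝ) ^ ((2 + ε / 2) * m)) ^ s * (c * (2:ℝ) ^ ((h : ℝ) * ((g + 1) * s - 1))) := by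
    have e1 : A * (2:ℝ) ^ ((2:ℝ) * g * h) ≤ (2:ℝ) ^ ((2 + ε / 2) * m) * P := by
      have e2 : (2:ℝ) ^ ((2:ℝ) * g * h) = 2 ^ (g * 2 * h) := by
        rw [← Real.rpow_natCast]
        congr 1
        push_cast
        ring
      have e3 : (2:ℝ) ^ ((2 + ε / 2) * m) = 2 ^ (2 * m) * (2:ℝ) ^ (ε / 2 * m) := by
        rw [← Real.rpow_natCast, ← Real.rpow_add (by norm_num)]
        congr 1
        push_cast
        ring
      rw [e2, e3]
      exact h3
    calc (A * (2:ℝ) ^ ((2:ℝ) * g * h)) ^ s ≤ ((2:ℝ) ^ ((2 + ε / 2) * m) * P) ^ s :=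
          pow_le_pow_left₀ (by positivity) e1 _
      _ = ((2:ℝ) ^ ((2 + ε / 2) * m)) ^ s * P ^ s := mul_pow _ _ _
      _ ≤ _ := by gcongr
  have h7 : A ^ s ≤ ((2:ℝ) ^ ((2 - (g - 1 + 1 / s) * α + ε) * m)) ^ s := by
    have e1 : (0:ℝ) < ((2:ℝ) ^ ((2:ℝ) * g * h)) ^ s := by positivity
    refine le_of_mul_le_mul_right ?_ e1
    rw [← mul_pow]
    refine h6.trans ?_
    have e2 : c = (2:ℝ) ^ (Real.logb 2 c) := (Real.rpow_logb (by norm_num) (by norm_num) hc0).symm
    rw [e2, ← Real.rpow_natCast, ← Real.rpow_natCast, ← Real.rpow_natCast, ← Real.rpow_mul (by norm_num),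
      ← Real.rpow_mul (by norm_num), ← Real.rpow_mul (by norm_num), ← Real.rpow_add (by norm_num),
      ← Real.rpow_add (by norm_num), ← Real.rpow_add (by norm_num)]
    refine Real.rpow_le_rpow_of_exponent_le (by norm_num) ?_
    have e3 : (2 - (g - 1 + 1 / (s : ℝ)) * α + ε) * m * s =
        (2 * s - e * α + ε * s) * m := by
      rw [he]
      field_simp
    rw [e3]
    have e4 : (α * m - 1) * e ≤ h * e := by gcongr
    rw [he] at e4 hm2 ⊢
    nlinarith
  exact le_of_pow_le_pow_left₀ (by omega) (by positivity) h7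

end Run7.h156.ES
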