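import Mathlib

/-!
# Random separation of the parts
-/

set_option autoImplicit false

open Finset

namespace Run7.h156.ES

variable {P ι : Type} [Fintype P] [DecidableEq P]

theorem card_fix (g : ℕ) (l : Fin g) (S : Finset P) :
    (univ.filter fun φ : P → Fin g => ∀ p ∈ S, φ p = l).card * g ^ S.card =
      g ^ Fintype.card P := by
  classical
  have h1 : (univ.filter fun φ : P → Fin g => ∀ p ∈ S, φ p = l) =
      Fintype.piFinset fun p => if p ∈ S then {l} else univ := by
    ext φ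
    rw [mem_filter, Fintype.mem_piFinset]
    constructor
    · intro h p
      split_ifs with hp
      · exact mem_singleton.2 (h.2 p hp)
      · exact mem_univ _
    · intro h
      refine ⟨mem_univ _, fun p hp => ?_⟩
      have := h p
      rw [if_pos hp] at this
      exact mem_singleton.1 this
  rw [h1, Fintype.card_piFinset]
  have h2 : ∀ p : P, (if p ∈ S then ({l} : Finset (Fin g)) else univ).card =
      if p ∈ S then 1 else g := by
    intro p
    split_ifs
    · exact card_singleton _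
    · rw [card_univ, Fintype.card_fin]
  rw [prod_congr rfl fun p _ => h2 p, prod_ite, prod_const_one, one_mul, prod_const]
  rw [← pow_add]
  congr 1
  have h3 := card_filter_add_card_filter_not (s := (univ : Finset P)) (fun p => p ∈ S)
  have h4 : (univ.filter fun p => p ∈ S) = S := by
    ext p
    simp
  rw [h4, card_univ] at h3
  omega

/-- the indicator -/
noncomputable def II {g : ℕ} (T : ι → Finset P) (l : Fin g) (i : ι) (φ : P → Fin g) : ℝ :=
  if ∀ p ∈ T i, φ p = l then 1 else 0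

theorem sum_II {g : ℕ} (hg : 1 ≤ g) (T : ι → Finset P) (l : Fin g) (i : ι) :
    ∑ φ, II T l i φ = (g : ℝ) ^ Fintype.card P * (1 / g) ^ (T i).card := by
  classical
  have hg0 : (0:ℝ) < g := by exact_mod_cast hg
  have h1 := card_fix g l (T i)
  have h2 : ∑ φ, II T l i φ = (univ.filter fun φ : P → Fin g => ∀ p ∈ T i, φ p = l).card := by
    unfold II
    rw [sum_ite, sum_const_zero, add_zero, sum_const, nsmul_eq_mul, mul_one]
  have h3 : ((univ.filter fun φ : P → Fin g => ∀ p ∈ T i, φ p = l).card : ℝ) * (g : ℝ) ^ (T i).card =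
      (g : ℝ) ^ Fintype.card P := by exact_mod_cast h1
  rw [h2, ← h3, one_div, inv_pow, mul_assoc, mul_inv_cancel₀ (by positivity), mul_one]

theorem sum_II_mul {g : ℕ} (hg : 1 ≤ g) (T : ι → Finset P) (l : Fin g) (i i' : ι)
    (h : Disjoint (T i) (T i')) :
    ∑ φ, II T l i φ * II T l i' φ =
      (g : ℝ) ^ Fintype.card P * ((1 / g) ^ (T i).card * (1 / g) ^ (T i').card) := by
  classical
  have h1 : ∀ φ : P → Fin g, II T l i φ * II T l i' φ =
      II (fun _ : Unit => T i ∪ T i') l () φ := by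
    intro φ
    unfold II
    by_cases h2 : ∀ p ∈ T i, φ p = l <;> by_cases h3 : ∀ p ∈ T i', φ p = l
    · rw [if_pos h2, if_pos h3, if_pos, mul_one]
      intro p hp
      rcases mem_union.1 hp with hp | hp
      · exact h2 p hp
      · exact h3 p hp
    · rw [if_neg h3, mul_zero, if_neg]
      intro h4
      exact h3 fun p hp => h4 p (mem_union_right _ hp)
    · rw [if_neg h2, zero_mul, if_neg]
      intro h4
      exact h2 fun p hp => h4 p (mem_union_left _ hp)
    · rw [if_neg h2, zero_mul, if_neg]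
      intro h4
      exact h2 fun p hp => h4 p (mem_union_left _ hp)
  rw [sum_congr rfl fun φ _ => h1 φ, sum_II hg, card_union_of_disjoint h, pow_add]

theorem II_mem {g : ℕ} (T : ι → Finset P) (l : Fin g) (i : ι) (φ : P → Fin g) :
    0 ≤ II T l i φ ∧ II T l i φ ≤ 1 := by
  unfold II
  split_ifs <;> constructor <;> norm_num

/-- The second moment. -/
theorem second_moment {g : ℕ} (hg : 1 ≤ g) (T : ι → Finset P) (l : Fin g) (Y : Finset ι)
    {w : ℕ} (hw : ∀ p, (Y.filter fun i => p ∈ T i).card ≤ w) {R : ℝ}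
    (hR : ∑ i ∈ Y, ((T i).card : ℝ) ≤ R) :
    ∑ φ : P → Fin g, (∑ i ∈ Y, (II T l i φ - (1 / g) ^ (T i).card)) ^ 2 ≤
      (g : ℝ) ^ Fintype.card P * (R * w) := by
  classical
  have hg0 : (0:ℝ) < g := by exact_mod_cast hg
  obtain ⟨G, hG⟩ : ∃ G, G = (g : ℝ) ^ Fintype.card P := ⟨_, rfl⟩
  have hG0 : 0 ≤ G := by rw [hG]; positivity
  have hcard : ((univ : Finset (P → Fin g)).card : ℝ) = G := by
    rw [card_univ, Fintype.card_fun, Fintype.card_fin, hG]
    push_cast
    rfl
  have h1 : ∀ i i' : ι, ∑ φ : P → Fin g, (II T l i φ - (1 / g) ^ (T i).card) *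
      (II T l i' φ - (1 / g) ^ (T i').card) ≤ if Disjoint (T i) (T i') then 0 else G := by
    intro i i'
    have e1 : ∑ φ : P → Fin g, (II T l i φ - (1 / (g : ℝ)) ^ (T i).card) *
        (II T l i' φ - (1 / g) ^ (T i').card) =
        ∑ φ, II T l i φ * II T l i' φ - G * ((1 / g) ^ (T i).card * (1 / g) ^ (T i').card) := by
      have e2 : ∀ φ : P → Fin g, (II T l i φ - (1 / (g : ℝ)) ^ (T i).card) *
          (II T l i' φ - (1 / g) ^ (T i').card) = II T l i φ * II T l i' φ -
          (1 / g) ^ (T i').card * II T l i φ - (1 / g) ^ (T i).card * II T l i' φ +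
          (1 / g) ^ (T i).card * (1 / g) ^ (T i').card := fun φ => by ring
      rw [sum_congr rfl fun φ _ => e2 φ, sum_add_distrib, sum_sub_distrib, sum_sub_distrib,
        ← mul_sum, ← mul_sum, sum_II hg, sum_II hg, sum_const, nsmul_eq_mul, hcard, ← hG]
      ring
    rw [e1]
    split_ifs with h
    · rw [sum_II_mul hg T l i i' h, ← hG, sub_self]
    · have e3 : ∑ φ, II T l i φ * II T l i' φ ≤ G := by
        rw [← hcard, ← nsmul_one]
        refine sum_le_card_nsmul _ _ _ fun φ _ => ?_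
        have a1 := II_mem T l i φ
        have a2 := II_mem T l i' φ
        nlinarith
      have e4 : 0 ≤ G * ((1 / (g : ℝ)) ^ (T i).card * (1 / g) ^ (T i').card) := by positivity
      linarith
  have h2 : ∑ φ : P → Fin g, (∑ i ∈ Y, (II T l i φ - (1 / g) ^ (T i).card)) ^ 2 =
      ∑ i ∈ Y, ∑ i' ∈ Y, ∑ φ : P → Fin g, (II T l i φ - (1 / g) ^ (T i).card) *
        (II T l i' φ - (1 / g) ^ (T i').card) := by
    have e1 : ∀ φ : P → Fin g, (∑ i ∈ Y, (II T l i φ - (1 / (g : ℝ)) ^ (T i).card)) ^ 2 =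
        ∑ i ∈ Y, ∑ i' ∈ Y, (II T l i φ - (1 / g) ^ (T i).card) *
          (II T l i' φ - (1 / g) ^ (T i').card) := fun φ => by
      rw [sq, sum_mul_sum]
    rw [sum_congr rfl fun φ _ => e1 φ, sum_comm]
    exact sum_congr rfl fun i _ => sum_comm
  rw [h2]
  have h3 : ∀ i ∈ Y, ∑ i' ∈ Y, (if Disjoint (T i) (T i') then (0:ℝ) else G) ≤
      G * ((T i).card * w) := by
    intro i _
    have e0 : ∀ i' ∈ Y, (if Disjoint (T i) (T i') then (0:ℝ) else G) =
        if ¬ Disjoint (T i) (T i') then G else 0 := by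
      intro i' _
      split_ifs <;> simp_all
    rw [sum_congr rfl e0, ← sum_filter, sum_const, nsmul_eq_mul, mul_comm]
    refine mul_le_mul_of_nonneg_left ?_ hG0
    have e1 : (Y.filter fun i' => ¬ Disjoint (T i) (T i')) ⊆
        (T i).biUnion fun p => Y.filter fun i' => p ∈ T i' := by
      intro i' hi'
      rw [mem_filter] at hi'
      obtain ⟨p, hp1, hp2⟩ := Finset.not_disjoint_iff.1 hi'.2
      rw [mem_biUnion]
      exact ⟨p, hp1, mem_filter.2 ⟨hi'.1, hp2⟩⟩
    have e2 := (card_le_card e1).trans (card_biUnion_le_card_mul _ _ w fun p _ => hw p)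
    exact_mod_cast e2
  calc _ ≤ ∑ i ∈ Y, ∑ i' ∈ Y, (if Disjoint (T i) (T i') then (0:ℝ) else G) :=
        sum_le_sum fun i _ => sum_le_sum fun i' _ => h1 i i'
    _ ≤ ∑ i ∈ Y, G * ((T i).card * w) := sum_le_sum h3
    _ = G * ((∑ i ∈ Y, ((T i).card : ℝ)) * w) := by rw [← mul_sum, sum_mul]
    _ ≤ G * (R * w) := by gcongr
    _ = _ := by rw [hG]

/-- **Random separation.** -/
theorem separation {g : ℕ} (hg : 1 ≤ g) (T : ι → Finset P) {Q : Type} [Fintype Q]
    (Y : Q → Finset ι) {w : ℕ} (hw : ∀ q p, ((Y q).filter fun i => p ∈ T i).card ≤ w) {R : ℝ}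
    (hR : ∀ q, ∑ i ∈ Y q, ((T i).card : ℝ) ≤ R) {τ : ℝ} (hτ : 0 < τ)
    (h : Fintype.card Q * g * (R * w) < τ ^ 2) :
    ∃ φ : P → Fin g, ∀ q l, ∑ i ∈ Y q, (1 / (g : ℝ)) ^ (T i).card - τ <
      (((Y q).filter fun i => ∀ p ∈ T i, φ p = l).card : ℝ) := by
  classical
  by_contra hcon
  push Not at hcon
  have hg0 : (0:ℝ) < g := by exact_mod_cast hg
  obtain ⟨G, hG⟩ : ∃ G, G = (g : ℝ) ^ Fintype.card P := ⟨_, rfl⟩
  have hG0 : 0 < G := by rw [hG]; positivity
  have hcard : ((univ : Finset (P → Fin g)).card : ℝ) = G := by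
    rw [card_univ, Fintype.card_fun, Fintype.card_fin, hG]
    push_cast
    rfl
  have h1 : ∀ φ : P → Fin g, τ ^ 2 ≤ ∑ q : Q, ∑ l : Fin g,
      (∑ i ∈ Y q, (II T l i φ - (1 / g) ^ (T i).card)) ^ 2 := by
    intro φ
    obtain ⟨q, l, hql⟩ := hcon φ
    have e1 : (((Y q).filter fun i => ∀ p ∈ T i, φ p = l).card : ℝ) = ∑ i ∈ Y q, II T l i φ := by
      unfold II
      rw [sum_ite, sum_const_zero, add_zero, sum_const, nsmul_eq_mul, mul_one]
    rw [e1] at hql
    have e2 : ∑ i ∈ Y q, (II T l i φ - (1 / (g : ℝ)) ^ (T i).card) ≤ -τ := by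
      rw [sum_sub_distrib]
      linarith
    have e3 : τ ^ 2 ≤ (∑ i ∈ Y q, (II T l i φ - (1 / (g : ℝ)) ^ (T i).card)) ^ 2 := by
      nlinarith
    refine e3.trans ?_
    refine le_trans ?_ (single_le_sum (f := fun q : Q => ∑ l : Fin g,
      (∑ i ∈ Y q, (II T l i φ - (1 / (g : ℝ)) ^ (T i).card)) ^ 2)
      (fun q _ => sum_nonneg fun l _ => sq_nonneg _) (mem_univ q))
    exact single_le_sum (f := fun l : Fin g =>
      (∑ i ∈ Y q, (II T l i φ - (1 / (g : ℝ)) ^ (T i).card)) ^ 2)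
      (fun l _ => sq_nonneg _) (mem_univ l)
  have h2 := sum_le_sum (s := univ) fun φ _ => h1 φ
  rw [sum_const, nsmul_eq_mul, hcard, sum_comm] at h2
  have h3 : ∑ q : Q, ∑ φ : P → Fin g, ∑ l : Fin g,
      (∑ i ∈ Y q, (II T l i φ - (1 / (g : ℝ)) ^ (T i).card)) ^ 2 ≤
      ∑ q : Q, ∑ l : Fin g, G * (R * w) := by
    refine sum_le_sum fun q _ => ?_
    rw [sum_comm]
    refine sum_le_sum fun l _ => ?_
    rw [hG]
    exact second_moment hg T l (Y q) (hw q) (hR q)
  rw [sum_const, sum_const, card_univ, card_univ, Fintype.card_fin, nsmul_eq_mul,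
    nsmul_eq_mul] at h3
  have h4 : G * τ ^ 2 ≤ G * (Fintype.card Q * g * (R * w)) := by
    refine h2.trans (h3.trans (le_of_eq ?_))
    ring
  have h5 := le_of_mul_le_mul_left h4 hG0
  linarith

/-- Bernoulli. -/
theorem line_le {g : ℕ} (hg : 2 ≤ g) (k t : ℕ) :
    ((g : ℝ) - ((t : ℝ) - k) * (g - 1)) / (g : ℝ) ^ (k + 1) ≤ (1 / (g : ℝ)) ^ t := by
  have hg2 : (2:ℝ) ≤ g := by exact_mod_cast hg
  have hg0 : (0:ℝ) < g := by linarith
  rw [div_le_iff₀ (by positivity), one_div, inv_pow]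
  rcases le_or_gt t (k + 1) with h | h
  · obtain ⟨n, hn⟩ := Nat.exists_eq_add_of_le h
    have e1 : ((g : ℝ) ^ t)⁻¹ * (g : ℝ) ^ (k + 1) = (g : ℝ) ^ n := by
      rw [hn, pow_add, ← mul_assoc, inv_mul_cancel₀ (by positivity), one_mul]
    rw [e1]
    have e2 := one_add_mul_le_pow (a := (g : ℝ) - 1) (by linarith) n
    have e3 : (k : ℝ) + 1 = t + n := by exact_mod_cast hn
    have e4 : (g : ℝ) - ((t : ℝ) - k) * (g - 1) = 1 + n * ((g : ℝ) - 1) := by
      have : (n : ℝ) = k + 1 - t := by linarith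
      rw [this]
      ring
    rw [e4]
    refine e2.trans (le_of_eq ?_)
    congr 1
    ring
  · have e1 : (k : ℝ) + 2 ≤ t := by
      have : k + 2 ≤ t := h
      exact_mod_cast this
    have e2 : (g : ℝ) - ((t : ℝ) - k) * (g - 1) ≤ 0 := by nlinarith
    exact e2.trans (by positivity)

end Run7.h156.ES
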