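import Pool.Agent.Run7.h156.ES.Core

/-!
# Product sets in relations decided by circuits with few reads and small treewidth: prescribed bits
-/

set_option autoImplicit false

open Finset

namespace Run7.h156.ES

open Run7.h156.CX

/-- The `K`-tuples of strings which are accepted and have the prescribed bits `c` in `P`. -/
noncomputable def acceptedP {K m : ℕ} {Z : Type} (C : WordCircuit (Fin K × Fin m) Bool Z)
    (P : Finset (Fin K × Fin m)) (c : Fin K × Fin m → Bool) : Finset (Fin K → Fin m → Bool) :=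
  univ.filter fun x => C.answer (inp x) = true ∧ ∀ p ∈ P, inp x p = c p

/-- **The core with explicit parameters.** -/
theorem core_finite2 {K g m h w κ θ b s₀ b₀ k : ℕ} {Z : Type} [Fintype Z] (hg : 2 ≤ g)
    (P : Finset (Fin K × Fin m)) (c : Fin K × Fin m → Bool)
    (C : WordCircuit (Fin K × Fin m) Bool Z) (hκ : C.FanIn κ) (hθ : C.TreewidthLE θ)
    (hL : Fintype.card Z ≤ 2 ^ b) {R : ℕ} (hR : ∀ j, cost C j ≤ R) (hw1 : 1 ≤ w)
    (hs₀ : ∀ s, w * s ≤ 8 * (K * R) + w → s ≤ s₀) (hb₀ : b₀ = s₀ * (2 * (θ + 1)) + 1)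
    {τ : ℝ} (hτ0 : 0 < τ) (hτ : (K : ℝ) * g * (R * w) < τ ^ 2)
    (hh : (h : ℝ) + κ * b₀ + P.card + τ ≤ ((g : ℝ) * m - ((R : ℝ) - k * m) * (g - 1)) / (g : ℝ) ^ (k + 1)) :
    ∃ (nm : Fin K → (Fin g → Fin h → Bool) → (Fin m → Bool))
      (X : Fin g → Finset (Fin K → Fin h → Bool)),
      (∀ j, Function.Injective (nm j)) ∧
      (∀ x : Fin g → Fin K → Fin h → Bool, (∀ l, x l ∈ X l) →
        (fun j => nm j fun l => x l j) ∈ acceptedP C P c) ∧
      (acceptedP C P c).card * 2 ^ (g * K * h) ≤ 2 ^ (K * m) * 2 ^ (b * ((κ + 1) * b₀)) *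
        ∏ l, (X l).card := by
  classical
  obtain ⟨s, T, D₀, Cl, _, cl, h1, h2, h3, h4, h5, h6, h7⟩ :=
    C.divide' hκ hθ hL Nat.one_le_two_pow w
  obtain ⟨D, hDD⟩ : ∃ D, D = D₀ ∪ P := ⟨_, rfl⟩
  have hg1 : 1 ≤ g := by omega
  have hg0 : (0:ℝ) < g := by exact_mod_cast hg1
  have hreads : C.reads ≤ K * R := by
    rw [← C.sum_wires, Fintype.sum_prod_type]
    have e1 : ∀ j : Fin K, ∑ a, C.wires (j, a) ≤ R := fun j =>
      (sum_le_sum fun a _ => le_max_right 1 _).trans (hR j)
    refine (sum_le_sum fun j _ => e1 j).trans ?_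
    rw [sum_const, card_univ, Fintype.card_fin, smul_eq_mul]
  have hs : s ≤ s₀ := hs₀ s (h1.trans (by omega))
  have hbb : s * (2 * (θ + 1)) + 1 ≤ b₀ := by
    rw [hb₀]
    exact Nat.add_le_add_right (Nat.mul_le_mul_right _ hs) _
  have hDc : D.card ≤ κ * b₀ + P.card := by
    rw [hDD]
    exact (card_union_le _ _).trans (Nat.add_le_add_right (h2.trans (Nat.mul_le_mul_left _ hbb)) _)
  have hClc : Fintype.card Cl ≤ 2 ^ (b * ((κ + 1) * b₀)) := by
    refine h3.trans ?_
    rw [← pow_mul]
    exact Nat.pow_le_pow_right (by norm_num) (Nat.mul_le_mul_left _ (Nat.mul_le_mul_left _ hbb))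
  obtain ⟨T', hT'⟩ : ∃ T' : Fin K × Fin m → Finset (Fin s ⊕ (Fin K × Fin m)), ∀ i, T' i =
    if T i = ∅ then {Sum.inr i} else (T i).map ⟨Sum.inl, Sum.inl_injective⟩ := ⟨_, fun _ => rfl⟩
  have hT1 : ∀ i, (T' i).card ≤ max 1 (C.wires i) := by
    intro i
    rw [hT']
    split_ifs with he
    · rw [card_singleton]
      exact le_max_left _ _
    · rw [card_map]
      exact (h4 i).trans (le_max_right _ _)
  have hT2 : ∀ i, (T' i).Nonempty := by
    intro i
    rw [hT']
    split_ifs with he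
    · exact singleton_nonempty _
    · rw [map_nonempty]
      exact nonempty_iff_ne_empty.2 he
  have hT3 : ∀ i q, q ∈ T i → Sum.inl q ∈ T' i := by
    intro i q hq
    rw [hT', if_neg (fun he => by rw [he] at hq; exact notMem_empty _ hq), mem_map]
    exact ⟨q, hq, rfl⟩
  have hT4 : ∀ (Y : Finset (Fin K × Fin m)) p, (Y.filter fun i => p ∈ T' i).card ≤ w := by
    intro Y p
    rcases p with q | i₀
    · refine (card_le_card ?_).trans (h5 Y q)
      intro i hi
      rw [mem_filter] at hi ⊢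
      refine ⟨hi.1, ?_⟩
      have h8 := hi.2
      rw [hT'] at h8
      split_ifs at h8 with he
      · rw [mem_singleton] at h8
        exact absurd h8 (by simp)
      · rw [mem_map] at h8
        obtain ⟨q', hq', hqq⟩ := h8
        rw [← Sum.inl_injective hqq]
        exact hq'
    · refine (card_le_card (t := {i₀}) ?_).trans (by rw [card_singleton]; exact hw1)
      intro i hi
      rw [mem_filter] at hi
      have h8 := hi.2
      rw [hT'] at h8
      split_ifs at h8 with he
      · rw [mem_singleton] at h8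
        rw [mem_singleton]
        exact (Sum.inr_injective h8).symm
      · rw [mem_map] at h8
        obtain ⟨q', hq', hqq⟩ := h8
        exact absurd hqq (by simp)
  obtain ⟨Y, hY⟩ : ∃ Y : Fin K → Finset (Fin K × Fin m), ∀ j, Y j =
    (univ : Finset (Fin m)).map ⟨fun a => (j, a), fun a a' e => congrArg Prod.snd e⟩ :=
    ⟨_, fun _ => rfl⟩
  have hYR : ∀ j, ∑ i ∈ Y j, ((T' i).card : ℝ) ≤ R := by
    intro j
    rw [hY, sum_map]
    have e1 : ∑ a : Fin m, (T' (j, a)).card ≤ R := (sum_le_sum fun a _ => hT1 _).trans (hR j)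
    exact_mod_cast e1
  obtain ⟨φ, hφ⟩ := separation hg1 T' Y (fun j p => hT4 (Y j) p) hYR hτ0 (by
    rw [Fintype.card_fin]
    exact hτ)
  have hline : ∀ j, (h : ℝ) + κ * b₀ + P.card + τ ≤ ∑ i ∈ Y j, (1 / (g : ℝ)) ^ (T' i).card := by
    intro j
    refine hh.trans ?_
    have e1 : ∑ i ∈ Y j, ((g : ℝ) - (((T' i).card : ℝ) - k) * (g - 1)) / (g : ℝ) ^ (k + 1) ≤
        ∑ i ∈ Y j, (1 / (g : ℝ)) ^ (T' i).card :=
      sum_le_sum fun i _ => line_le hg k _
    refine le_trans ?_ e1
    have hYc : ((Y j).card : ℝ) = m := by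
      rw [hY, card_map, card_univ, Fintype.card_fin]
    rw [← sum_div]
    refine div_le_div_of_nonneg_right ?_ (by positivity)
    rw [sum_sub_distrib, sum_const, nsmul_eq_mul, hYc, ← sum_mul, sum_sub_distrib, sum_const,
      nsmul_eq_mul, hYc]
    have hg1' : (0:ℝ) ≤ g - 1 := by
      have : (1:ℝ) ≤ g := by exact_mod_cast hg1
      linarith
    have e2 := mul_le_mul_of_nonneg_right (sub_le_sub_right (hYR j) ((m : ℝ) * k)) hg1'
    nlinarith
  obtain ⟨A, hA⟩ : ∃ A : Fin g → Fin K → Finset (Fin m), ∀ l j, A l j =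
    univ.filter fun a => (j, a) ∉ D ∧ ∀ p ∈ T' (j, a), φ p = l := ⟨_, fun _ _ => rfl⟩
  have hAc : ∀ l j, h ≤ (A l j).card := by
    intro l j
    have e1 := (hline j).trans_lt (by
      have := hφ j l
      linarith : _ < (((Y j).filter fun i => ∀ p ∈ T' i, φ p = l).card : ℝ) + τ)
    have e2 : h + (κ * b₀ + P.card) ≤ ((Y j).filter fun i => ∀ p ∈ T' i, φ p = l).card := by
      have : (h : ℝ) + κ * b₀ + P.card < ((Y j).filter fun i => ∀ p ∈ T' i, φ p = l).card := by linarith
      have h8 : ((h + (κ * b₀ + P.card) : ℕ) : ℝ) < ((Y j).filter fun i => ∀ p ∈ T' i, φ p = l).card := by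
        push_cast
        linarith
      exact (Nat.cast_lt.1 h8).le
    have e3 : ((Y j).filter fun i => ∀ p ∈ T' i, φ p = l) ⊆
        (A l j).map ⟨fun a => (j, a), fun a a' e => congrArg Prod.snd e⟩ ∪ D := by
      intro i hi
      rw [mem_filter, hY, mem_map] at hi
      obtain ⟨⟨a, -, rfl⟩, hi2⟩ := hi
      by_cases hD : (j, a) ∈ D
      · exact mem_union_right _ hD
      · refine mem_union_left _ (mem_map.2 ⟨a, ?_, rfl⟩)
        rw [hA, mem_filter]
        exact ⟨mem_univ _, hD, hi2⟩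
    have e4 := (card_le_card e3).trans (card_union_le _ _)
    rw [card_map] at e4
    omega
  obtain ⟨e, he⟩ : ∃ e : Fin g → Fin K → Fin h → Fin m, ∀ l j, Function.Injective (e l j) ∧
      ∀ a, e l j a ∈ A l j :=
    ⟨fun l j => (A l j).orderEmbOfCardLe (hAc l j), fun l j =>
      ⟨((A l j).orderEmbOfCardLe (hAc l j)).injective, fun a => orderEmbOfCardLe_mem _ _ a⟩⟩
  have heA : ∀ l j a, (j, e l j a) ∉ D ∧ ∀ p ∈ T' (j, e l j a), φ p = l := by
    intro l j a
    have := (he l j).2 a
    rw [hA, mem_filter] at this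
    exact this.2
  have heD : ∀ l j a, (j, e l j a) ∉ D₀ := fun l j a hd => (heA l j a).1 (by
    rw [hDD]
    exact mem_union_left _ hd)
  have heP : ∀ l j a, (j, e l j a) ∉ P := fun l j a hd => (heA l j a).1 (by
    rw [hDD]
    exact mem_union_right _ hd)
  have hel : ∀ l l' j a a', e l j a = e l' j a' → l = l' := by
    intro l l' j a a' hh'
    obtain ⟨p, hp⟩ := hT2 (j, e l j a)
    rw [← (heA l j a).2 p hp]
    rw [hh'] at hp
    exact (heA l' j a').2 p hp
  have hinj : ∀ j, Function.Injective fun p : Fin g × Fin h => e p.1 j p.2 := by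
    rintro j ⟨l, a⟩ ⟨l', a'⟩ hh'
    have e1 := hel l l' j a a' hh'
    subst e1
    have e2 : a = a' := (he l j).1 hh'
    rw [e2]
  obtain ⟨Ag, hAg⟩ : ∃ Ag : Fin g → Set (Fin K × Fin m), ∀ l, Ag l =
    {i | ∃ a, e l i.1 a = i.2} := ⟨_, fun _ => rfl⟩
  have hAgm : ∀ l i, i ∈ Ag l ↔ ∃ a, e l i.1 a = i.2 := fun l i => by rw [hAg]; rfl
  obtain ⟨out, hout⟩ : ∃ out : Fin K × Fin m → Prop, ∀ i, out i ↔ ∀ l, i ∉ Ag l :=
    ⟨_, fun _ => Iff.rfl⟩
  -- the number of the remaining variables
  have hcount : Fintype.card {i // out i} + g * K * h = K * m := by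
    have e1 : Function.Injective fun p : Fin g × Fin K × Fin h =>
        ((p.2.1, e p.1 p.2.1 p.2.2) : Fin K × Fin m) := by
      rintro ⟨l, j, a⟩ ⟨l', j', a'⟩ hh'
      simp only [Prod.mk.injEq] at hh'
      obtain ⟨rfl, hh''⟩ := hh'
      have e2 := hinj j (a₁ := (l, a)) (a₂ := (l', a')) hh''
      simp only [Prod.mk.injEq] at e2
      rw [e2.1, e2.2]
    have e2 : (univ.image fun p : Fin g × Fin K × Fin h =>
        ((p.2.1, e p.1 p.2.1 p.2.2) : Fin K × Fin m)) = univ.filter fun i => ¬ out i := by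
      ext i
      rw [mem_image, mem_filter, hout]
      push Not
      constructor
      · rintro ⟨p, -, rfl⟩
        exact ⟨mem_univ _, p.1, (hAgm _ _).2 ⟨p.2.2, rfl⟩⟩
      · rintro ⟨-, l, hl⟩
        obtain ⟨a, ha⟩ := (hAgm _ _).1 hl
        exact ⟨(l, i.1, a), mem_univ _, Prod.ext rfl ha⟩
    have e3 : (univ.filter fun i : Fin K × Fin m => ¬ out i).card = g * K * h := by
      rw [← e2, card_image_of_injective _ e1, card_univ]
      simp only [Fintype.card_prod, Fintype.card_fin]
      ring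
    have e4 := card_filter_add_card_filter_not (s := (univ : Finset (Fin K × Fin m))) out
    rw [e3, card_univ, Fintype.card_prod, Fintype.card_fin, Fintype.card_fin] at e4
    rw [Fintype.card_subtype]
    exact e4
  -- pigeonhole
  obtain ⟨key, hkey⟩ : ∃ key : (Fin K → Fin m → Bool) → ({i // out i} → Bool) × Cl, ∀ x, key x =
    (fun i => x i.1.1 i.1.2, cl (inp x)) := ⟨_, fun _ => rfl⟩
  have hne : (univ : Finset (({i // out i} → Bool) × Cl)).Nonempty :=
    ⟨(fun _ => false, cl fun _ => false), mem_univ _⟩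
  obtain ⟨⟨ξ, c₀⟩, -, hmax⟩ := exists_max_image univ
    (fun y => ((acceptedP C P c).filter fun x => key x = y).card) hne
  obtain ⟨F, hF⟩ : ∃ F, F = (acceptedP C P c).filter fun x => key x = (ξ, c₀) := ⟨_, rfl⟩
  have hFm : ∀ x, x ∈ F ↔ (C.answer (inp x) = true ∧ ∀ p ∈ P, inp x p = c p) ∧ (∀ i : {i // out i}, x i.1.1 i.1.2 = ξ i) ∧
      cl (inp x) = c₀ := by
    intro x
    rw [hF, mem_filter, hkey, Prod.mk.injEq, funext_iff]
    unfold acceptedP
    rw [mem_filter]
    simp only [mem_univ, true_and]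
  have hSF : (acceptedP C P c).card ≤ 2 ^ Fintype.card {i // out i} * Fintype.card Cl * F.card := by
    rw [card_eq_sum_card_fiberwise (f := key) (t := univ) (fun x _ => mem_coe.2 (mem_univ _))]
    refine (sum_le_card_nsmul _ _ F.card fun y hy => ?_).trans (le_of_eq ?_)
    · rw [hF]
      exact hmax y hy
    · rw [card_univ, Fintype.card_prod, Fintype.card_fun, Fintype.card_bool, smul_eq_mul]
  obtain ⟨X, hX⟩ : ∃ X : Fin g → Finset (Fin K → Fin h → Bool), ∀ l, X l =
    F.image fun x j a => x j (e l j a) := ⟨_, fun _ => rfl⟩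
  obtain ⟨nm, hnm⟩ : ∃ nm : Fin K → (Fin g → Fin h → Bool) → (Fin m → Bool), ∀ j u, nm j u =
    Function.extend (fun p : Fin g × Fin h => e p.1 j p.2) (fun p => u p.1 p.2)
      (fun a => if ho : out (j, a) then ξ ⟨(j, a), ho⟩ else false) := ⟨_, fun _ _ => rfl⟩
  have hnm1 : ∀ j u l a, nm j u (e l j a) = u l a := by
    intro j u l a
    rw [hnm]
    exact (hinj j).extend_apply _ _ (l, a)
  refine ⟨nm, X, ?_, ?_, ?_⟩
  · intro j u u' huu
    funext l a
    rw [← hnm1 j u, ← hnm1 j u', huu]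
  · intro x hx
    have hx' : ∀ l, ∃ f ∈ F, ∀ j a, f j (e l j a) = x l j a := by
      intro l
      have h8 := hx l
      rw [hX, mem_image] at h8
      obtain ⟨f, hf, hfx⟩ := h8
      exact ⟨f, hf, fun j a => by rw [← hfx]⟩
    choose f hfF hfx using hx'
    obtain ⟨l₀⟩ : Nonempty (Fin g) := ⟨⟨0, hg1⟩⟩
    have hglue : ∀ G : Finset (Fin g), ∃ y : Fin K × Fin m → Bool, cl y = c₀ ∧
        (∀ l ∈ G, ∀ i ∈ Ag l, y i = f l i.1 i.2) ∧
        (∀ i, (∀ l ∈ G, i ∉ Ag l) → y i = f l₀ i.1 i.2) := by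
      intro G
      induction G using Finset.induction_on with
      | empty =>
        exact ⟨inp (f l₀), ((hFm _).1 (hfF l₀)).2.2, fun l hl => absurd hl (notMem_empty _),
          fun i _ => rfl⟩
      | insert l₁ G hl₁ ih =>
        obtain ⟨y, y1, y2, y3⟩ := ih
        obtain ⟨y', hy'⟩ : ∃ y' : Fin K × Fin m → Bool, ∀ i, y' i =
          if i ∈ Ag l₁ then f l₁ i.1 i.2 else y i := ⟨_, fun _ => rfl⟩
        have hdis : ∀ l l' i, i ∈ Ag l → i ∈ Ag l' → l = l' := by
          intro l l' i hi hi'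
          obtain ⟨a, ha⟩ := (hAgm _ _).1 hi
          obtain ⟨a', ha'⟩ := (hAgm _ _).1 hi'
          exact hel l l' i.1 a a' (ha.trans ha'.symm)
        refine ⟨y', ?_, ?_, ?_⟩
        · have h8 := h7 (univ.filter fun q => φ (Sum.inl q) = l₁) (Ag l₁)
            {i | ∃ l, l ≠ l₁ ∧ i ∈ Ag l} (inp (f l₁)) y y' ?_ ?_ ?_ ?_ ?_ ?_
          · rw [h8]
            exact ((hFm _).1 (hfF l₁)).2.2
          · rintro ⟨j, a⟩ hi
            obtain ⟨a', ha'⟩ := (hAgm _ _).1 hi
            simp only at ha'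
            subst ha'
            refine ⟨heD l₁ j a', fun q hq => ?_⟩
            rw [mem_filter]
            exact ⟨mem_univ _, (heA l₁ j a').2 _ (hT3 _ _ hq)⟩
          · rintro ⟨j, a⟩ ⟨l, hl, hi⟩
            obtain ⟨a', ha'⟩ := (hAgm _ _).1 hi
            simp only at ha'
            subst ha'
            refine ⟨heD l j a', Finset.disjoint_left.2 fun q hq hq' => ?_⟩
            rw [mem_filter] at hq'
            exact hl (((heA l j a').2 _ (hT3 _ _ hq)).symm.trans hq'.2)
          · intro i hi hi'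
            have ho : out i := by
              rw [hout]
              intro l hl
              by_cases hll : l = l₁
              · exact hi (hll ▸ hl)
              · exact hi' ⟨l, hll, hl⟩
            have e1 := ((hFm _).1 (hfF l₁)).2.1 ⟨i, ho⟩
            have e2 := ((hFm _).1 (hfF l₀)).2.1 ⟨i, ho⟩
            have e3 := y3 i fun l _ => (hout i).1 ho l
            show f l₁ i.1 i.2 = y i
            rw [e3]
            exact e1.trans e2.symm
          · rw [((hFm _).1 (hfF l₁)).2.2, y1]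
          · intro i hi
            rw [hy', if_pos hi]
            rfl
          · intro i hi
            rw [hy', if_neg hi]
        · intro l hl i hi
          rw [hy']
          split_ifs with hi'
          · rw [hdis l l₁ i hi hi']
          · rcases mem_insert.1 hl with rfl | hl
            · exact absurd hi hi'
            · exact y2 l hl i hi
        · intro i hi
          rw [hy', if_neg (hi l₁ (mem_insert_self _ _))]
          exact y3 i fun l hl => hi l (mem_insert_of_mem hl)
    obtain ⟨y, y1, y2, y3⟩ := hglue univ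
    have hyx : y = inp (fun j => nm j fun l => x l j) := by
      funext i
      obtain ⟨j, a⟩ := i
      show y (j, a) = nm j (fun l => x l j) a
      by_cases ho : out (j, a)
      · rw [y3 (j, a) fun l _ => (hout _).1 ho l, hnm, Function.extend_apply', dif_pos ho]
        · exact ((hFm _).1 (hfF l₀)).2.1 ⟨(j, a), ho⟩
        · rintro ⟨p, hp⟩
          exact (hout _).1 ho p.1 ((hAgm _ _).2 ⟨p.2, hp⟩)
      · rw [hout] at ho
        push Not at ho
        obtain ⟨l, hl⟩ := ho
        obtain ⟨a', ha'⟩ := (hAgm _ _).1 hl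
        simp only at ha'
        rw [y2 l (mem_univ _) (j, a) hl, ← ha', hnm1]
        exact hfx l j a'
    unfold acceptedP
    rw [mem_filter]
    refine ⟨mem_univ _, ?_, ?_⟩
    · rw [← hyx, h6 y (inp (f l₀)) (y1.trans ((hFm _).1 (hfF l₀)).2.2.symm)]
      exact ((hFm _).1 (hfF l₀)).1.1
    · intro p hp
      rw [← hyx, y3 p fun l _ hl => ?_]
      · exact ((hFm _).1 (hfF l₀)).1.2 p hp
      · obtain ⟨a, ha⟩ := (hAgm _ _).1 hl
        apply heP l p.1 a
        rw [ha]
        exact hp
  · have hFX : F.card ≤ ∏ l, (X l).card := by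
      rw [← Fintype.card_piFinset]
      refine card_le_card_of_injOn (fun x l j a => x j (e l j a)) ?_ ?_
      · intro x hx
        rw [mem_coe, Fintype.mem_piFinset]
        intro l
        rw [hX, mem_image]
        exact ⟨x, hx, rfl⟩
      · intro x hx x' hx' hxx
        funext j a
        by_cases ho : out (j, a)
        · have e1 := ((hFm _).1 hx).2.1 ⟨(j, a), ho⟩
          have e2 := ((hFm _).1 hx').2.1 ⟨(j, a), ho⟩
          exact e1.trans e2.symm
        · rw [hout] at ho
          push Not at ho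
          obtain ⟨l, hl⟩ := ho
          obtain ⟨a', ha'⟩ := (hAgm _ _).1 hl
          simp only at ha'
          rw [← ha']
          exact congrFun (congrFun (congrFun hxx l) j) a'
    calc (acceptedP C P c).card * 2 ^ (g * K * h)
        ≤ (2 ^ Fintype.card {i // out i} * Fintype.card Cl * F.card) * 2 ^ (g * K * h) :=
          Nat.mul_le_mul_right _ hSF
      _ = 2 ^ (Fintype.card {i // out i} + g * K * h) * Fintype.card Cl * F.card := by
          rw [pow_add]
          ring
      _ ≤ _ := by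
          rw [hcount]
          exact Nat.mul_le_mul (Nat.mul_le_mul_left _ hClc) hFX

end Run7.h156.ES
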