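import Pool.Agent.Run7.h156.CX.Circ

/-!
# Division of a word circuit into parts: the parts in which a variable is read
-/

set_option autoImplicit false

open Finset

namespace Run7.h156.CX.WordCircuit

variable {ι X Z : Type} (C : WordCircuit ι X Z)

/-- The number of the wires from the variable `i` to gates. -/
noncomputable def wires (i : ι) : ℕ := Nat.card {p : (g : Fin C.size) × Fin (C.vars g) // C.vsrc p.1 p.2 = i}

theorem card_parts_le (B : Finset (Fin C.size)) (part : Fin C.size → ℕ) (s : ℕ) (i : ι) :
    (C.parts B part s i).card ≤ C.wires i := by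
  classical
  unfold wires
  rw [← Fintype.card_coe, ← Nat.card_eq_fintype_card]
  have hmem : ∀ j : {j // j ∈ C.parts B part s i}, ∃ g, g ∉ B ∧ part g = j.1.1 ∧ C.Reads g i :=
    fun j => (C.mem_parts B part s i j.1).1 j.2
  refine Nat.card_le_card_of_injective (fun j => ⟨⟨(hmem j).choose, (hmem j).choose_spec.2.2.choose⟩,
    (hmem j).choose_spec.2.2.choose_spec⟩) ?_
  intro j j' h
  have h1 := congrArg (fun p => p.1.1) h
  simp only at h1
  apply Subtype.ext
  apply Fin.ext
  rw [← (hmem j).choose_spec.2.1, ← (hmem j').choose_spec.2.1, h1]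

theorem sum_wires [Fintype ι] : ∑ i, C.wires i = C.reads := by
  classical
  have h1 : C.reads = Fintype.card ((g : Fin C.size) × Fin (C.vars g)) := by
    rw [Fintype.card_sigma]
    simp only [Fintype.card_fin]
    rfl
  rw [h1]
  unfold wires
  rw [← Fintype.card_congr (Equiv.sigmaFiberEquiv
    (fun p : (g : Fin C.size) × Fin (C.vars g) => C.vsrc p.1 p.2)), Fintype.card_sigma]
  refine sum_congr rfl fun i _ => ?_
  rw [Nat.card_eq_fintype_card]

/-- **Division into parts.** -/
theorem divide' [Fintype Z] [DecidableEq ι] {κ θ L : ℕ} (hκ : C.FanIn κ)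
    (hθ : C.TreewidthLE θ) (hL : Fintype.card Z ≤ L) (hL1 : 1 ≤ L) (w : ℕ) :
    ∃ (s : ℕ) (T : ι → Finset (Fin s)) (D : Finset ι) (Cl : Type) (_ : Fintype Cl)
      (cl : (ι → X) → Cl), w * s ≤ 8 * C.reads + w ∧
      D.card ≤ κ * (s * (2 * (θ + 1)) + 1) ∧
      Fintype.card Cl ≤ L ^ ((κ + 1) * (s * (2 * (θ + 1)) + 1)) ∧
      (∀ i, (T i).card ≤ C.wires i) ∧
      (∀ (Y : Finset ι) (j : Fin s), (Y.filter fun i => j ∈ T i).card ≤ w) ∧
      (∀ x x', cl x = cl x' → C.answer x = C.answer x') ∧
      ∀ (J : Finset (Fin s)) (A E : Set ι) (x x' y : ι → X),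
        (∀ i ∈ A, i ∉ D ∧ T i ⊆ J) → (∀ i ∈ E, i ∉ D ∧ Disjoint (T i) J) →
        (∀ i, i ∉ A → i ∉ E → x i = x' i) → cl x = cl x' →
        (∀ i, i ∈ A → y i = x i) → (∀ i, i ∉ A → y i = x' i) → cl y = cl x := by
  classical
  obtain ⟨s, B, part, h1, h2, h3, h4, h5⟩ := C.exists_parts hθ w
  obtain ⟨B', hB'⟩ : ∃ B', B' = B ∪ {C.out} := ⟨_, rfl⟩
  obtain ⟨P, hP⟩ : ∃ P, P = B' ∪ B'.biUnion fun g => univ.image (C.gsrc g) := ⟨_, rfl⟩
  obtain ⟨D, hD⟩ : ∃ D, D = B'.biUnion fun g => univ.image (C.vsrc g) := ⟨_, rfl⟩
  have hBB' : ∀ g, g ∉ B' → g ∉ B := fun g hg h => hg (by rw [hB']; exact mem_union_left _ h)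
  have hcB : B'.card ≤ s * (2 * (θ + 1)) + 1 := by
    rw [hB']
    refine (card_union_le _ _).trans (Nat.add_le_add h2 ?_)
    rw [card_singleton]
  have hmP : ∀ g, g ∈ B' → g ∈ P := fun g hg => by rw [hP]; exact mem_union_left _ hg
  have hmP' : ∀ g a, g ∈ B' → C.gsrc g a ∈ P := fun g a hg => by
    rw [hP]
    exact mem_union_right _ (mem_biUnion.2 ⟨g, hg, mem_image.2 ⟨a, mem_univ _, rfl⟩⟩)
  have hmD : ∀ g i, g ∈ B' → C.Reads g i → i ∈ D := by
    rintro g i hg ⟨a, rfl⟩
    rw [hD]
    exact mem_biUnion.2 ⟨g, hg, mem_image.2 ⟨a, mem_univ _, rfl⟩⟩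
  refine ⟨s, C.parts B' part s, D, {g // g ∈ P} → Z, inferInstance, fun x g => C.val x g.1,
    h1, ?_, ?_, C.card_parts_le B' part s, ?_, ?_, ?_⟩
  · rw [hD]
    refine (card_biUnion_le_card_mul _ _ κ fun g _ => ?_).trans ?_
    · refine card_image_le.trans ?_
      rw [card_univ, Fintype.card_fin]
      exact le_trans (Nat.le_add_right _ _) (hκ g)
    · rw [mul_comm]
      exact Nat.mul_le_mul_left _ hcB
  · rw [Fintype.card_fun, Fintype.card_coe]
    have hPc : P.card ≤ (κ + 1) * (s * (2 * (θ + 1)) + 1) := by
      rw [hP]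
      refine (card_union_le _ _).trans ?_
      have h6 : (B'.biUnion fun g => univ.image (C.gsrc g)).card ≤ B'.card * κ := by
        refine card_biUnion_le_card_mul _ _ κ fun g _ => ?_
        refine card_image_le.trans ?_
        rw [card_univ, Fintype.card_fin]
        exact le_trans (Nat.le_add_left _ _) (hκ g)
      calc B'.card + (B'.biUnion fun g => univ.image (C.gsrc g)).card
          ≤ B'.card + B'.card * κ := Nat.add_le_add_left h6 _
        _ = (κ + 1) * B'.card := by ring
        _ ≤ _ := Nat.mul_le_mul_left _ hcB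
    exact (Nat.pow_le_pow_left hL _).trans (Nat.pow_le_pow_right hL1 hPc)
  · intro Y j
    refine (C.card_readBy (univ.filter fun g => g ∉ B' ∧ part g = j.1) Y _ ?_).trans ?_
    · intro i _ hi
      obtain ⟨g, hg1, hg2, hg3⟩ := (C.mem_parts B' part s i j).1 hi
      exact ⟨g, mem_filter.2 ⟨mem_univ _, hg1, hg2⟩, hg3⟩
    · refine le_trans (sum_le_sum_of_subset ?_) (h5 j.1)
      intro g hg
      rw [mem_filter] at hg ⊢
      exact ⟨hg.1, hBB' g hg.2.1, hg.2.2⟩
  · intro x x' h
    unfold answer
    have h6 : C.out ∈ P := hmP _ (by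
      rw [hB']
      exact mem_union_right _ (mem_singleton_self _))
    have h7 := congrFun h ⟨C.out, h6⟩
    simp only at h7
    rw [h7]
  · intro J A E x x' y hA hE hxx hcl hyA hyA'
    have hval : ∀ g ∈ P, C.val x g = C.val x' g := fun g hg => congrFun hcl ⟨g, hg⟩
    obtain ⟨u, hu⟩ : ∃ u : Fin C.size → Z, ∀ g, u g = if g ∈ P then C.val x g else
      if ∃ h : part g < s, (⟨part g, h⟩ : Fin s) ∈ J then C.val x g else C.val x' g :=
      ⟨_, fun _ => rfl⟩
    have key : ∀ n : ℕ, ∀ g : Fin C.size, g.1 = n → C.val y g = u g := by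
      intro n
      induction n using Nat.strong_induction_on with
      | _ n ih =>
        intro g hg
        have ih' : ∀ a, C.val y (C.gsrc g a) = u (C.gsrc g a) := fun a =>
          ih _ (by have := C.acyclic g a; rw [Fin.lt_def] at this; omega) _ rfl
        rw [C.spec y g]
        by_cases hgB : g ∈ B'
        · have e1 : u g = C.val x g := by rw [hu, if_pos (hmP g hgB)]
          rw [e1, C.spec x g]
          congr 1
          · funext a
            have h6 := hmD g _ hgB ⟨a, rfl⟩
            have h7 : C.vsrc g a ∉ A := fun h => (hA _ h).1 h6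
            have h8 : C.vsrc g a ∉ E := fun h => (hE _ h).1 h6
            rw [hyA' _ h7, hxx _ h7 h8]
          · funext a
            rw [ih', hu, if_pos (hmP' g a hgB)]
        · have hps : part g < s := h4 g (hBB' g hgB)
          have hsame : ∀ a, C.gsrc g a ∉ P → part (C.gsrc g a) = part g := fun a ha =>
            h3 _ g ⟨a, rfl⟩ (fun h => ha (hmP _ (by rw [hB']; exact mem_union_left _ h)))
              (hBB' g hgB)
          by_cases hJ : (⟨part g, hps⟩ : Fin s) ∈ J
          · have e1 : u g = C.val x g := by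
              rw [hu]
              split_ifs with h6 h7
              · rfl
              · rfl
              · exact absurd ⟨hps, hJ⟩ h7
            rw [e1, C.spec x g]
            congr 1
            · funext a
              have h6 : (⟨part g, hps⟩ : Fin s) ∈ C.parts B' part s (C.vsrc g a) :=
                (C.mem_parts B' part s _ _).2 ⟨g, hgB, rfl, ⟨a, rfl⟩⟩
              have h8 : C.vsrc g a ∉ E := fun h =>
                Finset.disjoint_left.1 (hE _ h).2 h6 hJ
              by_cases h7 : C.vsrc g a ∈ A
              · exact hyA _ h7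
              · rw [hyA' _ h7, hxx _ h7 h8]
            · funext a
              rw [ih', hu]
              split_ifs with h6 h7
              · rfl
              · rfl
              · exact absurd (by
                  obtain ⟨hq⟩ : Nonempty (part (C.gsrc g a) = part g) := ⟨hsame a h6⟩
                  refine ⟨by rw [hq]; exact hps, ?_⟩
                  have : (⟨part (C.gsrc g a), by rw [hq]; exact hps⟩ : Fin s) = ⟨part g, hps⟩ :=
                    Fin.ext hq
                  rw [this]
                  exact hJ) h7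
          · have e1 : u g = C.val x' g := by
              rw [hu]
              split_ifs with h6 h7
              · exact hval g h6
              · exact absurd h7.2 hJ
              · rfl
            rw [e1, C.spec x' g]
            congr 1
            · funext a
              have h6 : (⟨part g, hps⟩ : Fin s) ∈ C.parts B' part s (C.vsrc g a) :=
                (C.mem_parts B' part s _ _).2 ⟨g, hgB, rfl, ⟨a, rfl⟩⟩
              have h7 : C.vsrc g a ∉ A := fun h => hJ ((hA _ h).2 h6)
              exact hyA' _ h7
            · funext a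
              rw [ih', hu]
              split_ifs with h6 h7
              · exact hval _ h6
              · obtain ⟨hq1, hq2⟩ := h7
                exact absurd (by
                  have : (⟨part (C.gsrc g a), hq1⟩ : Fin s) = ⟨part g, hps⟩ :=
                    Fin.ext (hsame a h6)
                  rw [← this]
                  exact hq2) hJ
              · rfl
    funext g
    have h6 := key g.1.1 g.1 rfl
    rw [hu, if_pos g.2] at h6
    exact h6

end Run7.h156.CX.WordCircuit
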