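import Pool.Agent.Run7.h156.ES.Pieces
import Pool.Agent.N598.BT.Design

/-!
# Symmetric designs decided by circuits with few reads and small treewidth
-/

set_option autoImplicit false

open Finset

namespace Run7.h156.ES

open Pool.Agent.N598.BT (Inc points_le le_ncard_inc)

theorem design_noK {m v lam : ℕ} (B : Fin v → Finset (Fin v))
    (p b : Fin v → Fin m → Bool) (hp : Function.Injective p) (hb : Function.Injective b)
    (hl : ∀ x y : Fin v, x ≠ y →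
      (Finset.univ.filter (fun i => x ∈ B i ∧ y ∈ B i)).card = lam) :
    ¬ SetHasK 2 (lam + 1) (Inc B p b) := by
  classical
  rintro ⟨X, Y, hX, hY, h⟩
  have hx : ∀ s, ∃ i, X s = p i := fun s => by
    obtain ⟨i, _, _, h0, _⟩ := h s 0
    exact ⟨i, h0⟩
  have hy : ∀ s, ∃ j, Y s = b j := fun s => by
    obtain ⟨_, j, _, _, h1⟩ := h 0 s
    exact ⟨j, h1⟩
  choose i hi using hx
  choose j hj using hy
  have hmem : ∀ s s', i s ∈ B (j s') := by
    intro s s'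
    obtain ⟨i', j', hm, h0, h1⟩ := h s s'
    have e0 : p (i s) = p i' := (hi s).symm.trans h0
    have e1 : b (j s') = b j' := (hj s').symm.trans h1
    rw [hp e0, hb e1]
    exact hm
  have hiinj : i 0 ≠ i 1 := by
    intro h2
    have h3 : X 0 = X 1 := by rw [hi, hi, h2]
    exact absurd (hX h3) (by decide)
  have hjinj : Function.Injective j := by
    intro s s' h2
    refine hY ?_
    rw [hj, hj, h2]
  have h5 := hl _ _ hiinj
  have h6 : (univ.image j) ⊆ univ.filter fun a => i 0 ∈ B a ∧ i 1 ∈ B a := by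
    intro a ha
    obtain ⟨s, -, rfl⟩ := mem_image.1 ha
    exact mem_filter.2 ⟨mem_univ _, hmem _ _, hmem _ _⟩
  have h7 := card_le_card h6
  rw [card_image_of_injective _ hjinj, card_univ, Fintype.card_fin, h5] at h7
  omega

/-- **Hall's conjecture for these designs.** -/
theorem hall (lam : ℕ) (r β : ℝ) (hlam : 1 ≤ lam) (hr : 0 ≤ r) (hβ0 : 0 ≤ β)
    (hβ : β < (5 - 3 * r) / 8) :
    ∃ δ : ℝ, 0 < δ ∧ ∀ D : ℕ, ∃ N : ℕ, ∀ (v k : ℕ) (B : Fin v → Finset (Fin v)),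
      (∀ i, (B i).card = k) →
      (∀ x y : Fin v, x ≠ y →
        (Finset.univ.filter (fun i => x ∈ B i ∧ y ∈ B i)).card = lam) →
      ∀ (m L : ℕ) (p b : Fin v → Fin m → Bool),
      Function.Injective p → Function.Injective b → 2 ^ m ≤ D * v → (L : ℝ) ≤ (v : ℝ) ^ β →
      UnionOf r (δ * Real.logb 2 v) L (Inc B p b) → v ≤ N := by
  obtain ⟨e, he⟩ : ∃ e, e = (5 - 3 * r) / 8 - β := ⟨_, rfl⟩
  have he0 : 0 < e := by rw [he]; linarith
  obtain ⟨α, hα⟩ : ∃ α, α = (3 - r) / 4 - e / 6 := ⟨_, rfl⟩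
  have hα0 : 0 ≤ α := by
    rw [hα, he]
    nlinarith
  obtain ⟨δ, hδ, m₀, hm₀⟩ := union_bound (s := 2) (t := lam + 1) (k := 1) (by norm_num) (by omega)
    hr hα0 (by rw [hα]; norm_num; linarith) (by positivity : 0 < e / 4)
  obtain ⟨γ, hγ⟩ : ∃ γ, γ = 2 - (1 + 1 / ((2 : ℕ) : ℝ)) * α + e / 4 := ⟨_, rfl⟩
  have hγ1 : γ = 3 / 2 - β - e / 2 := by
    rw [hγ, hα, he]
    push_cast
    ring
  have hγ0 : 0 ≤ γ := by
    rw [hγ1, he]
    nlinarith
  refine ⟨δ, hδ, fun D => ?_⟩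
  obtain ⟨X, hX⟩ : ∃ X : ℝ, X = (D : ℝ) ^ γ := ⟨_, rfl⟩
  have hX0 : 0 ≤ X := by rw [hX]; positivity
  obtain ⟨N₀, hN₀⟩ := exists_nat_ge ((2 * X ^ 2) ^ (1 / e))
  refine ⟨max (max 2 N₀) (2 ^ m₀), ?_⟩
  intro v k B hk hl m L p b hp hb hD hL hU
  rcases Nat.lt_or_ge v 2 with hv | hv
  · exact le_trans hv.le (le_trans (le_max_left _ _) (le_max_left _ _))
  rcases Nat.lt_or_ge (2 ^ m₀) v with hvm | hvm
  swap
  · exact hvm.trans (le_max_right _ _)
  refine le_trans ?_ (le_trans (le_max_right _ _) (le_max_left _ _))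
  have hv1 : (1 : ℝ) ≤ v := by exact_mod_cast (show 1 ≤ v by omega)
  have hv0 : (0 : ℝ) < v := by linarith
  have hvn : v ≤ 2 ^ m := by
    have := Fintype.card_le_of_injective p hp
    rwa [Fintype.card_fin, Fintype.card_fun, Fintype.card_fin, Fintype.card_bool] at this
  have hm : m₀ ≤ m := by
    by_contra hcon
    push Not at hcon
    have := Nat.pow_le_pow_right (n := 2) (by norm_num) hcon.le
    omega
  have hlog : Real.logb 2 v ≤ m := by
    rw [Real.logb_le_iff_le_rpow (by norm_num) hv0, Real.rpow_natCast]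
    exact_mod_cast hvn
  have hle := hm₀ m hm L (Inc B p b) (δ * Real.logb 2 v)
    (mul_le_mul_of_nonneg_left hlog hδ.le) hU (design_noK B p b hp hb hl)
  rw [← hγ] at hle
  have hinc : ((v * k : ℕ) : ℝ) ≤ (Inc B p b).ncard := by
    exact_mod_cast le_ncard_inc B p b hp hb hk
  have hpts := points_le v k lam hv hlam B hk hl
  have hpow : (2:ℝ) ^ (γ * m) ≤ X * (v : ℝ) ^ γ := by
    have e1 : (2:ℝ) ^ (γ * m) = ((2:ℝ) ^ m) ^ γ := by
      rw [mul_comm, Real.rpow_mul (by norm_num), Real.rpow_natCast]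
    have e2 : ((2:ℝ) ^ m) ≤ D * v := by exact_mod_cast hD
    rw [e1, hX, ← Real.mul_rpow (Nat.cast_nonneg _) hv0.le]
    exact Real.rpow_le_rpow (by positivity) e2 hγ0
  -- upper bound
  have hup : ((v * k : ℕ) : ℝ) ≤ X * (v : ℝ) ^ (3 / 2 - e / 2) := by
    refine (hinc.trans hle).trans ?_
    have e3 : (v : ℝ) ^ (3 / 2 - e / 2) = (v : ℝ) ^ β * (v : ℝ) ^ γ := by
      rw [← Real.rpow_add hv0, hγ1]
      congr 1
      ring
    calc (L : ℝ) * (2:ℝ) ^ (γ * m) ≤ (v : ℝ) ^ β * (X * (v : ℝ) ^ γ) := by gcongr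
      _ = _ := by rw [e3]; ring
  -- squares
  have hsq : (v : ℝ) ^ 3 / 2 ≤ X ^ 2 * ((v : ℝ) ^ 3 * (v : ℝ) ^ (-e)) := by
    have h1 : (v : ℝ) / 2 ≤ (k : ℝ) ^ 2 := by
      have h2 : (v : ℝ) ≤ k * k + 1 := by exact_mod_cast hpts
      have h3 : (2 : ℝ) ≤ v := by exact_mod_cast hv
      nlinarith
    have h4 : (v : ℝ) ^ 3 / 2 ≤ ((v * k : ℕ) : ℝ) ^ 2 := by
      push_cast
      calc (v : ℝ) ^ 3 / 2 = (v : ℝ) ^ 2 * ((v : ℝ) / 2) := by ring
        _ ≤ (v : ℝ) ^ 2 * (k : ℝ) ^ 2 := mul_le_mul_of_nonneg_left h1 (by positivity)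
        _ = ((v : ℝ) * k) ^ 2 := by ring
    refine h4.trans ((pow_le_pow_left₀ (by positivity) hup 2).trans (le_of_eq ?_))
    rw [mul_pow]
    congr 1
    rw [← Real.rpow_natCast _ 3, ← Real.rpow_add hv0, ← Real.rpow_natCast _ 2,
      ← Real.rpow_mul hv0.le]
    congr 1
    push_cast
    ring
  have hfin : (v : ℝ) ^ e ≤ 2 * X ^ 2 := by
    have h1 : (v : ℝ) ^ e * (v : ℝ) ^ (-e) = 1 := by
      rw [← Real.rpow_add hv0]
      simp
    have h2 : 0 < (v : ℝ) ^ (-e) := Real.rpow_pos_of_pos hv0 _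
    have h3 : 0 < (v : ℝ) ^ 3 := by positivity
    by_contra hcon
    rw [not_le] at hcon
    have h4 : 2 * X ^ 2 * (v : ℝ) ^ (-e) < 1 := by
      rw [← h1]
      exact mul_lt_mul_of_pos_right hcon h2
    nlinarith
  have hlast : (v : ℝ) ≤ (2 * X ^ 2) ^ (1 / e) := by
    calc (v : ℝ) = ((v : ℝ) ^ e) ^ (1 / e) := by
          rw [← Real.rpow_mul hv0.le, mul_one_div_cancel he0.ne', Real.rpow_one]
      _ ≤ (2 * X ^ 2) ^ (1 / e) := Real.rpow_le_rpow (by positivity) hfin (by positivity)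
  exact_mod_cast hlast.trans hN₀

end Run7.h156.ES
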