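import Pool.Agent.Run7.h156.ES.Bipg
import Pool.Agent.Run7.h156.ES.Host

/-!
# Graphs without `K_{q,q}` on bit strings, decided by circuits with few reads and small treewidth:
any number of groups
-/

set_option autoImplicit false

open Finset

namespace Run7.h156.ES

open Pool.Agent.Results.MP_d08c72_co.TensorNetworks (NoKrr no_of noKrr_map card_edges_map)

/-- **Pieces without `K_{s,t}`.** -/
theorem piece_bound_g {s t g k : ℕ} (hs : 1 ≤ s) (hst : s ≤ t) (hg : 2 ≤ g) {r α ε : ℝ}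
    (hr : 0 ≤ r) (hα0 : 0 ≤ α) (hα : α * (g:ℝ) ^ (k + 1) < g - (r - k) * (g - 1)) (hε : 0 < ε) :
    ∃ δ : ℝ, 0 < δ ∧ ∃ m₀ : ℕ, ∀ m : ℕ, m₀ ≤ m → ∀ S : Set (Fin 2 → Fin m → Bool),
      Piece r (δ * m) S → ¬ SetHasK s t S →
      (S.ncard : ℝ) ≤ (2:ℝ) ^ ((2 - (g - 1 + 1 / s) * α + ε) * m) := by
  classical
  obtain ⟨δ, hδ, m₀, h⟩ := bipg hs hst hg hr hα0 hα hε
  refine ⟨δ, hδ, m₀, ?_⟩
  rintro m hm S ⟨Z, _, κ, θ, b, C, h1, h2, h3, h4, h5, h6, h7⟩ hK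
  have e1 : S = ↑(accepted C) := by
    ext x
    rw [h7, mem_coe]
    unfold accepted
    rw [mem_filter]
    simp
  rw [e1, Set.ncard_coe_finset]
  refine h m hm Z κ θ b h1 h2 C h3 h4 h5 h6 ?_
  rintro ⟨a, c, ha, hc, hac⟩
  apply hK
  rw [e1]
  exact ⟨a, c, ha, hc, fun i j => mem_coe.2 (hac i j)⟩

theorem bern (g k : ℕ) (hg : 1 ≤ g) : (1:ℝ) + k * (g - 1) ≤ (g:ℝ) ^ k := by
  have h := one_add_mul_le_pow (a := (g:ℝ) - 1) (by
    have : (1:ℝ) ≤ g := by exact_mod_cast hg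
    linarith) k
  have e : (1:ℝ) + (g - 1) = g := by ring
  rwa [e] at h

/-- **Graphs without `K_{q,q}`.** -/
theorem krr_host_g (q g k : ℕ) (hq : 1 ≤ q) (hg : 2 ≤ g) (a r : ℝ) (hr : 1 ≤ r) (ha : 0 ≤ a)
    (h : a * (g:ℝ) ^ (k + 1) * q < (g - (r - k) * (g - 1)) * ((g - 1) * q + 1)) :
    ∃ δ : ℝ, 0 < δ ∧ ∃ η : ℝ, 0 < η ∧ ∀ D : ℕ, ∃ n₀ : ℕ, ∀ (n m L : ℕ)
      (lab : Fin n ↪ (Fin m → Bool)) (G : SimpleGraph (Fin n)), n₀ ≤ n → 2 ^ m ≤ D * n →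
      NoKrr q (G.map lab) → (L : ℝ) ≤ (n : ℝ) ^ η →
      CoveredBy r (δ * Real.logb 2 n) L (G.map lab) →
      (Nat.card G.edgeSet : ℝ) ≤ (n : ℝ) ^ (2 - a - η) := by
  have hq0 : (0:ℝ) < q := by exact_mod_cast hq
  have hq1 : (1:ℝ) ≤ q := by exact_mod_cast hq
  have hg0 : (2:ℝ) ≤ g := by exact_mod_cast hg
  have hp : (0:ℝ) < (g:ℝ) ^ (k + 1) := by positivity
  have hgq : (0:ℝ) < (g - 1) * q + 1 := by nlinarith
  obtain ⟨lo, hlo⟩ : ∃ lo, lo = a * q / ((g - 1) * q + 1) := ⟨_, rfl⟩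
  obtain ⟨hi, hhi⟩ : ∃ hi, hi = (g - (r - k) * (g - 1)) / (g:ℝ) ^ (k + 1) := ⟨_, rfl⟩
  have hlohi : lo < hi := by
    rw [hlo, hhi, div_lt_div_iff₀ hgq hp]
    nlinarith
  have hlo0 : 0 ≤ lo := by rw [hlo]; positivity
  have hhi1 : g * hi ≤ 1 := by
    rw [hhi, mul_div_assoc', div_le_one hp, pow_succ, mul_comm]
    refine mul_le_mul_of_nonneg_right ?_ (by linarith)
    have := bern g k (by omega)
    nlinarith
  obtain ⟨α, hα⟩ : ∃ α, α = (lo + hi) / 2 := ⟨_, rfl⟩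
  have hα0 : 0 ≤ α := by rw [hα]; linarith
  have hαhi : α < hi := by rw [hα]; linarith
  have hαlo : lo < α := by rw [hα]; linarith
  have hαc : α * (g:ℝ) ^ (k + 1) < g - (r - k) * (g - 1) := by
    rw [hhi, lt_div_iff₀ hp] at hαhi
    exact hαhi
  have hgain : a < ((g:ℝ) - 1 + 1 / (q:ℝ)) * α := by
    rw [hlo, div_lt_iff₀ hgq] at hαlo
    have e : ((g:ℝ) - 1 + 1 / (q:ℝ)) * α = α * ((g - 1) * q + 1) / q := by
      field_simp
    rw [e, lt_div_iff₀ hq0]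
    exact hαlo
  obtain ⟨η, hη⟩ : ∃ η, η = (((g:ℝ) - 1 + 1 / (q:ℝ)) * α - a) / 4 := ⟨_, rfl⟩
  have hη0 : 0 < η := by rw [hη]; linarith
  obtain ⟨δ, hδ, m₀, hm₀⟩ := piece_bound_g (s := q) (t := 2 * q) (g := g) (k := k) hq (by omega) hg
    (by linarith : 0 ≤ r) hα0 hαc hη0
  obtain ⟨γ, hγ⟩ : ∃ γ, γ = 2 - ((g:ℝ) - 1 + 1 / (q:ℝ)) * α + η := ⟨_, rfl⟩
  have hγ1 : γ = 2 - a - 3 * η := by
    rw [hγ, hη]
    ring
  have hγ0 : 0 ≤ γ := by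
    rw [hγ]
    have h1 : 1 / (q:ℝ) ≤ 1 := by
      rw [div_le_one hq0]
      exact hq1
    have h2 : ((g:ℝ) - 1 + 1 / (q:ℝ)) * α ≤ g * α := by nlinarith
    have h3 : g * α ≤ g * hi := by nlinarith
    linarith
  refine ⟨δ, hδ, η, hη0, fun D => ?_⟩
  obtain ⟨N₁, hN₁⟩ := exists_nat_ge (((D:ℝ) ^ γ) ^ (1 / η))
  refine ⟨max (max 1 N₁) (2 ^ m₀), ?_⟩
  intro n m L lab G hn hD hK hL hC
  have hn1 : 1 ≤ n := le_trans (le_trans (le_max_left _ _) (le_max_left _ _)) hn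
  have hnN : N₁ ≤ n := le_trans (le_trans (le_max_right _ _) (le_max_left _ _)) hn
  have hnm₀ : 2 ^ m₀ ≤ n := le_trans (le_max_right _ _) hn
  have hn0' : (0:ℝ) < n := by exact_mod_cast hn1
  have hnm : n ≤ 2 ^ m := by
    have := Fintype.card_le_of_injective lab lab.injective
    simpa using this
  have hm : m₀ ≤ m := (Nat.pow_le_pow_iff_right (by norm_num : 1 < 2)).1 (hnm₀.trans hnm)
  have hlog : Real.logb 2 n ≤ m := by
    rw [Real.logb_le_iff_le_rpow (by norm_num) hn0', Real.rpow_natCast]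
    exact_mod_cast hnm
  obtain ⟨F, h1, h2, h3⟩ := hC
  have hF : ∀ j, ((F j).ncard : ℝ) ≤ (2:ℝ) ^ (γ * m) := by
    intro j
    rw [hγ]
    exact hm₀ m hm (F j) ((h1 j).mono (mul_le_mul_of_nonneg_left hlog hδ.le))
      (noK_of hK (h2 j))
  have hE := edges_le (G.map lab) F hF h3
  have hle : (Nat.card G.edgeSet : ℝ) ≤ ((G.map lab).edgeSet.ncard : ℝ) := by
    exact_mod_cast card_edges_map G lab
  have hpow : (2:ℝ) ^ (γ * m) ≤ (D:ℝ) ^ γ * (n : ℝ) ^ γ := by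
    have e1 : (2:ℝ) ^ (γ * m) = ((2:ℝ) ^ m) ^ γ := by
      rw [mul_comm, Real.rpow_mul (by norm_num), Real.rpow_natCast]
    have e2 : ((2:ℝ) ^ m) ≤ D * n := by exact_mod_cast hD
    rw [e1, ← Real.mul_rpow (Nat.cast_nonneg _) hn0'.le]
    exact Real.rpow_le_rpow (by positivity) e2 hγ0
  have hDn : (D:ℝ) ^ γ ≤ (n:ℝ) ^ η := by
    have h5 : ((D:ℝ) ^ γ) ^ (1 / η) ≤ n := hN₁.trans (by exact_mod_cast hnN)
    calc (D:ℝ) ^ γ = (((D:ℝ) ^ γ) ^ (1 / η)) ^ η := by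
          rw [← Real.rpow_mul (by positivity), one_div_mul_cancel hη0.ne', Real.rpow_one]
      _ ≤ (n:ℝ) ^ η := Real.rpow_le_rpow (by positivity) h5 hη0.le
  calc (Nat.card G.edgeSet : ℝ) ≤ L * (2:ℝ) ^ (γ * m) := hle.trans hE
    _ ≤ (n:ℝ) ^ η * ((n:ℝ) ^ η * (n : ℝ) ^ γ) := by
        refine mul_le_mul hL (hpow.trans ?_) (by positivity) (by positivity)
        exact mul_le_mul_of_nonneg_right hDn (by positivity)
    _ = (n:ℝ) ^ (2 - a - η) := by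
        rw [← Real.rpow_add hn0', ← Real.rpow_add hn0', hγ1]
        congr 1
        ring

end Run7.h156.ES
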