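import Pool.Agent.Run7.h156.ES.Hall
import Pool.Agent.Run7.h156.ES.Hostg

/-!
# Symmetric designs decided by circuits with few reads and small treewidth: any number of groups
-/

set_option autoImplicit false

open Finset

namespace Run7.h156.ES

open Pool.Agent.N598.BT (Inc points_le le_ncard_inc)

/-- **Unions without `K_{s,t}`.** -/
theorem union_bound_g {s t g k : ℕ} (hs : 1 ≤ s) (hst : s ≤ t) (hg : 2 ≤ g) {r α ε : ℝ}
    (hr : 0 ≤ r) (hα0 : 0 ≤ α) (hα : α * (g:ℝ) ^ (k + 1) < g - (r - k) * (g - 1)) (hε : 0 < ε) :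
    ∃ δ : ℝ, 0 < δ ∧ ∃ m₀ : ℕ, ∀ m : ℕ, m₀ ≤ m → ∀ (L : ℕ) (S : Set (Fin 2 → Fin m → Bool)) (T : ℝ),
      T ≤ δ * m → UnionOf r T L S → ¬ SetHasK s t S →
      (S.ncard : ℝ) ≤ L * (2:ℝ) ^ ((2 - (g - 1 + 1 / s) * α + ε) * m) := by
  obtain ⟨δ, hδ, m₀, h⟩ := piece_bound_g hs hst hg hr hα0 hα hε
  refine ⟨δ, hδ, m₀, ?_⟩
  rintro m hm L S T hT ⟨F, hF, rfl⟩ hK
  have h1 : (⋃ l, F l).ncard ≤ ∑ l, (F l).ncard := by
    have := Finset.set_ncard_biUnion_le (univ : Finset (Fin L)) F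
    simpa using this
  have h2 : ∀ l, ((F l).ncard : ℝ) ≤ (2:ℝ) ^ ((2 - ((g:ℝ) - 1 + 1 / (s : ℝ)) * α + ε) * m) := by
    intro l
    refine h m hm (F l) ((hF l).mono hT) ?_
    rintro ⟨a, c, ha, hc, hac⟩
    exact hK ⟨a, c, ha, hc, fun i j => Set.mem_iUnion.2 ⟨l, hac i j⟩⟩
  calc (((⋃ l, F l).ncard : ℕ) : ℝ) ≤ ∑ l, ((F l).ncard : ℝ) := by exact_mod_cast h1
    _ ≤ ∑ _l : Fin L, (2:ℝ) ^ ((2 - ((g:ℝ) - 1 + 1 / (s : ℝ)) * α + ε) * m) :=
        sum_le_sum fun l _ => h2 l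
    _ = _ := by rw [sum_const, card_univ, Fintype.card_fin, nsmul_eq_mul]

/-- **Hall's conjecture for these designs.** -/
theorem hall_g (lam g k₀ : ℕ) (r β : ℝ) (hlam : 1 ≤ lam) (hg : 2 ≤ g) (hr : 1 ≤ r) (hβ0 : 0 ≤ β)
    (hβ : β + 1 / 2 < ((g:ℝ) - 1 / 2) * ((g - (r - k₀) * (g - 1)) / (g:ℝ) ^ (k₀ + 1))) :
    ∃ δ : ℝ, 0 < δ ∧ ∀ D : ℕ, ∃ N : ℕ, ∀ (v k : ℕ) (B : Fin v → Finset (Fin v)),
      (∀ i, (B i).card = k) →
      (∀ x y : Fin v, x ≠ y →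
        (Finset.univ.filter (fun i => x ∈ B i ∧ y ∈ B i)).card = lam) →
      ∀ (m L : ℕ) (p b : Fin v → Fin m → Bool),
      Function.Injective p → Function.Injective b → 2 ^ m ≤ D * v → (L : ℝ) ≤ (v : ℝ) ^ β →
      UnionOf r (δ * Real.logb 2 v) L (Inc B p b) → v ≤ N := by
  have hg0 : (2:ℝ) ≤ g := by exact_mod_cast hg
  have hp : (0:ℝ) < (g:ℝ) ^ (k₀ + 1) := by positivity
  obtain ⟨hi, hhi⟩ : ∃ hi, hi = (g - (r - k₀) * (g - 1)) / (g:ℝ) ^ (k₀ + 1) := ⟨_, rfl⟩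
  rw [← hhi] at hβ
  have hhi1 : g * hi ≤ 1 := by
    rw [hhi, mul_div_assoc', div_le_one hp, pow_succ, mul_comm]
    refine mul_le_mul_of_nonneg_right ?_ (by linarith)
    have := bern g k₀ (by omega)
    nlinarith
  obtain ⟨G, hG⟩ : ∃ G : ℝ, G = (g:ℝ) - 1 / 2 := ⟨_, rfl⟩
  have hG0 : 0 < G := by rw [hG]; linarith
  rw [← hG] at hβ
  have hhi0 : 0 < hi := by
    by_contra hcon
    push Not at hcon
    have : G * hi ≤ 0 := mul_nonpos_of_nonneg_of_nonpos hG0.le hcon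
    linarith
  obtain ⟨e, he⟩ : ∃ e, e = G * hi - (β + 1 / 2) := ⟨_, rfl⟩
  have he0 : 0 < e := by rw [he]; linarith
  obtain ⟨α, hα⟩ : ∃ α, α = hi - e / (4 * G) := ⟨_, rfl⟩
  have hGα : G * α = G * hi - e / 4 := by
    rw [hα]
    field_simp
  have hα0 : 0 ≤ α := by
    have h1 : 0 ≤ G * α := by
      rw [hGα]
      linarith
    exact nonneg_of_mul_nonneg_right h1 hG0
  have hαlt : α < hi := by
    rw [hα]
    have : 0 < e / (4 * G) := by positivity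
    linarith
  have hαc : α * (g:ℝ) ^ (k₀ + 1) < g - (r - k₀) * (g - 1) := by
    rw [hhi, lt_div_iff₀ hp] at hαlt
    exact hαlt
  obtain ⟨δ, hδ, m₀, hm₀⟩ := union_bound_g (s := 2) (t := lam + 1) (g := g) (k := k₀) (by norm_num)
    (by omega) hg (by linarith : 0 ≤ r) hα0 hαc (by positivity : 0 < e / 4)
  obtain ⟨γ, hγ⟩ : ∃ γ, γ = 2 - ((g:ℝ) - 1 + 1 / ((2 : ℕ) : ℝ)) * α + e / 4 := ⟨_, rfl⟩
  have hγ1 : γ = 3 / 2 - β - e / 2 := by
    have h1 : ((g:ℝ) - 1 + 1 / ((2 : ℕ) : ℝ)) * α = G * α := by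
      rw [hG]
      push_cast
      ring
    rw [hγ, h1, hGα, he]
    ring
  have hγ0 : 0 ≤ γ := by
    have h1 : G * hi ≤ 1 := by
      rw [hG]
      nlinarith
    rw [hγ1]
    have h2 : e ≤ 1 - (β + 1 / 2) := by
      rw [he]
      linarith
    linarith
  refine ⟨δ, hδ, fun D => ?_⟩
  obtain ⟨X, hX⟩ : ∃ X : ℝ, X = (D : ℝ) ^ γ := ⟨_, rfl⟩
  have hX0 : 0 ≤ X := by rw [hX]; positivity
  obtain ⟨N₀, hN₀⟩ := exists_nat_ge ((2 * X ^ 2) ^ (1 / e))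
  refine ⟨max (max 2 N₀) (2 ^ m₀), ?_⟩
  intro v k B hk hl m L p b hp hb hD hL hU
  rcases Nat.lt_or_ge v 2 with hv | hv
  · exact le_trans hv.le (le_trans (le_max_left _ _) (le_max_left _ _))
  rcases Nat.lt_or_ge (2 ^ m₀) v with hvm | hvm
  swap
  · exact hvm.trans (le_max_right _ _)
  refine le_trans ?_ (le_trans (le_max_right _ _) (le_max_left _ _))
  have hv1 : (1 : ℝ) ≤ v := by exact_mod_cast (show 1 ≤ v by omega)
  have hv0 : (0 : ℝ) < v := by linarith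
  have hvn : v ≤ 2 ^ m := by
    have := Fintype.card_le_of_injective p hp
    rwa [Fintype.card_fin, Fintype.card_fun, Fintype.card_fin, Fintype.card_bool] at this
  have hm : m₀ ≤ m := by
    by_contra hcon
    push Not at hcon
    have := Nat.pow_le_pow_right (n := 2) (by norm_num) hcon.le
    omega
  have hlog : Real.logb 2 v ≤ m := by
    rw [Real.logb_le_iff_le_rpow (by norm_num) hv0, Real.rpow_natCast]
    exact_mod_cast hvn
  have hle := hm₀ m hm L (Inc B p b) (δ * Real.logb 2 v)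
    (mul_le_mul_of_nonneg_left hlog hδ.le) hU (design_noK B p b hp hb hl)
  rw [← hγ] at hle
  have hinc : ((v * k : ℕ) : ℝ) ≤ (Inc B p b).ncard := by
    exact_mod_cast le_ncard_inc B p b hp hb hk
  have hpts := points_le v k lam hv hlam B hk hl
  have hpow : (2:ℝ) ^ (γ * m) ≤ X * (v : ℝ) ^ γ := by
    have e1 : (2:ℝ) ^ (γ * m) = ((2:ℝ) ^ m) ^ γ := by
      rw [mul_comm, Real.rpow_mul (by norm_num), Real.rpow_natCast]
    have e2 : ((2:ℝ) ^ m) ≤ D * v := by exact_mod_cast hD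
    rw [e1, hX, ← Real.mul_rpow (Nat.cast_nonneg _) hv0.le]
    exact Real.rpow_le_rpow (by positivity) e2 hγ0
  -- upper bound
  have hup : ((v * k : ℕ) : ℝ) ≤ X * (v : ℝ) ^ (3 / 2 - e / 2) := by
    refine (hinc.trans hle).trans ?_
    have e3 : (v : ℝ) ^ (3 / 2 - e / 2) = (v : ℝ) ^ β * (v : ℝ) ^ γ := by
      rw [← Real.rpow_add hv0, hγ1]
      congr 1
      ring
    calc (L : ℝ) * (2:ℝ) ^ (γ * m) ≤ (v : ℝ) ^ β * (X * (v : ℝ) ^ γ) := by gcongr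
      _ = _ := by rw [e3]; ring
  -- squares
  have hsq : (v : ℝ) ^ 3 / 2 ≤ X ^ 2 * ((v : ℝ) ^ 3 * (v : ℝ) ^ (-e)) := by
    have h1 : (v : ℝ) / 2 ≤ (k : ℝ) ^ 2 := by
      have h2 : (v : ℝ) ≤ k * k + 1 := by exact_mod_cast hpts
      have h3 : (2 : ℝ) ≤ v := by exact_mod_cast hv
      nlinarith
    have h4 : (v : ℝ) ^ 3 / 2 ≤ ((v * k : ℕ) : ℝ) ^ 2 := by
      push_cast
      calc (v : ℝ) ^ 3 / 2 = (v : ℝ) ^ 2 * ((v : ℝ) / 2) := by ring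
        _ ≤ (v : ℝ) ^ 2 * (k : ℝ) ^ 2 := mul_le_mul_of_nonneg_left h1 (by positivity)
        _ = ((v : ℝ) * k) ^ 2 := by ring
    refine h4.trans ((pow_le_pow_left₀ (by positivity) hup 2).trans (le_of_eq ?_))
    rw [mul_pow]
    congr 1
    rw [← Real.rpow_natCast _ 3, ← Real.rpow_add hv0, ← Real.rpow_natCast _ 2,
      ← Real.rpow_mul hv0.le]
    congr 1
    push_cast
    ring
  have hfin : (v : ℝ) ^ e ≤ 2 * X ^ 2 := by
    have h1 : (v : ℝ) ^ e * (v : ℝ) ^ (-e) = 1 := by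
      rw [← Real.rpow_add hv0]
      simp
    have h2 : 0 < (v : ℝ) ^ (-e) := Real.rpow_pos_of_pos hv0 _
    have h3 : 0 < (v : ℝ) ^ 3 := by positivity
    by_contra hcon
    rw [not_le] at hcon
    have h4 : 2 * X ^ 2 * (v : ℝ) ^ (-e) < 1 := by
      rw [← h1]
      exact mul_lt_mul_of_pos_right hcon h2
    nlinarith
  have hlast : (v : ℝ) ≤ (2 * X ^ 2) ^ (1 / e) := by
    calc (v : ℝ) = ((v : ℝ) ^ e) ^ (1 / e) := by
          rw [← Real.rpow_mul hv0.le, mul_one_div_cancel he0.ne', Real.rpow_one]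
      _ ≤ (2 * X ^ 2) ^ (1 / e) := Real.rpow_le_rpow (by positivity) hfin (by positivity)
  exact_mod_cast hlast.trans hN₀

end Run7.h156.ES
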