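import Pool.Agent.Run7.h156.ES.Hostg

/-!
# The number of groups
-/

set_option autoImplicit false

open Finset

namespace Run7.h156.ES

open Pool.Agent.Results.MP_d08c72_co.TensorNetworks (NoKrr)

/-- `r` reads are allowed for graphs without `K_{q,q}` which have at least `n ^ (2 - a)` edges. -/
def Allowed (a r : ℝ) (q : ℕ) : Prop :=
  r < 2 - a ∨ ∃ g k : ℕ, 2 ≤ g ∧
    a * (g:ℝ) ^ (k + 1) * q < (g - (r - k) * (g - 1)) * ((g - 1) * q + 1)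

theorem exists_g {a r : ℝ} {q : ℕ} (hq : 1 ≤ q) (ha : 0 ≤ a) (hr : 1 ≤ r) (h : Allowed a r q) :
    ∃ g k : ℕ, 2 ≤ g ∧
      a * (g:ℝ) ^ (k + 1) * q < (g - (r - k) * (g - 1)) * ((g - 1) * q + 1) := by
  rcases h with h | h
  swap
  · exact h
  obtain ⟨e, he⟩ : ∃ e, e = 2 - a - r := ⟨_, rfl⟩
  have he0 : 0 < e := by rw [he]; linarith
  obtain ⟨N, hN⟩ := exists_nat_gt (a / e)
  refine ⟨N + 2, 1, by omega, ?_⟩
  have hq1 : (1:ℝ) ≤ q := by exact_mod_cast hq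
  have hN0 : (0:ℝ) ≤ N := Nat.cast_nonneg _
  rw [div_lt_iff₀ he0] at hN
  push_cast
  have h1 : a * ((N:ℝ) + 2) < (2 - r) * (N + 1) := by
    have e1 : 2 - r = a + e := by rw [he]; ring
    rw [e1]
    nlinarith
  have h2 : (2 - r) * ((N:ℝ) + 2) ≤ (N + 2 - (r - 1) * (N + 2 - 1)) := by nlinarith
  have h3 : 0 < 2 - r := by linarith
  calc a * ((N:ℝ) + 2) ^ (1 + 1) * q = a * (N + 2) * ((N + 2) * q) := by ring
    _ < (2 - r) * (N + 1) * ((N + 2) * q) :=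
        mul_lt_mul_of_pos_right h1 (by positivity)
    _ = ((2 - r) * (N + 2)) * ((N + 1) * q) := by ring
    _ ≤ (N + 2 - (r - 1) * (N + 2 - 1)) * ((N + 2 - 1) * q + 1) := by
        refine mul_le_mul h2 (by nlinarith) (by positivity) ?_
        exact le_trans (by positivity) h2

/-- **Graphs without `K_{q,q}`.** -/
theorem krr_host_r (q : ℕ) (hq : 1 ≤ q) (a r : ℝ) (hr : 1 ≤ r) (ha : 0 ≤ a) (h : Allowed a r q) :
    ∃ δ : ℝ, 0 < δ ∧ ∃ η : ℝ, 0 < η ∧ ∀ D : ℕ, ∃ n₀ : ℕ, ∀ (n m L : ℕ)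
      (lab : Fin n ↪ (Fin m → Bool)) (G : SimpleGraph (Fin n)), n₀ ≤ n → 2 ^ m ≤ D * n →
      NoKrr q (G.map lab) → (L : ℝ) ≤ (n : ℝ) ^ η →
      CoveredBy r (δ * Real.logb 2 n) L (G.map lab) →
      (Nat.card G.edgeSet : ℝ) ≤ (n : ℝ) ^ (2 - a - η) := by
  obtain ⟨g, k, hg, hgk⟩ := exists_g hq ha hr h
  exact krr_host_g q g k hq hg a r hr ha hgk

end Run7.h156.ES
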