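import Pool.Agent.Run7.h156.ES.Bip

/-!
# Unions of relations decided by circuits with few reads and small treewidth
-/

set_option autoImplicit false

open Finset

namespace Run7.h156.ES

open Run7.h156.CX

/-- The set `S` of `K`-tuples of strings of `m` bits is decided by a word circuit (gates of fan-in `κ`
which compute arbitrary functions, words of `b` bits, treewidth `θ`) with
`(κ + 1) (θ + 1) b ≤ T`, in which the number of the wires from the bits of each of the `K` strings is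
at most `r m`, where a bit which is never read counts one. -/
def Piece (r T : ℝ) {K m : ℕ} (S : Set (Fin K → Fin m → Bool)) : Prop :=
  ∃ (Z : Type) (_ : Fintype Z) (κ θ b : ℕ) (C : WordCircuit (Fin K × Fin m) Bool Z), 1 ≤ b ∧
    Fintype.card Z ≤ 2 ^ b ∧ C.FanIn κ ∧ C.TreewidthLE θ ∧ (∀ j, (cost C j : ℝ) ≤ r * m) ∧
    ((κ + 1) * (θ + 1) * b : ℝ) ≤ T ∧ ∀ x, x ∈ S ↔ C.answer (inp x) = true

/-- The set is the union of `L` pieces. -/
def UnionOf (r T : ℝ) (L : ℕ) {K m : ℕ} (S : Set (Fin K → Fin m → Bool)) : Prop :=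
  ∃ F : Fin L → Set (Fin K → Fin m → Bool), (∀ l, Piece r T (F l)) ∧ ⋃ l, F l = S

theorem Piece.mono {r T T' : ℝ} {K m : ℕ} {S : Set (Fin K → Fin m → Bool)} (h : Piece r T S)
    (hT : T ≤ T') : Piece r T' S := by
  obtain ⟨Z, _, κ, θ, b, C, h1, h2, h3, h4, h5, h6, h7⟩ := h
  exact ⟨Z, inferInstance, κ, θ, b, C, h1, h2, h3, h4, h5, h6.trans hT, h7⟩

/-- there are `s` different first and `t` different second entries all of whose pairs are in `S` -/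
def SetHasK {U : Type} (s t : ℕ) (S : Set (Fin 2 → U)) : Prop :=
  ∃ (a : Fin s → U) (c : Fin t → U), Function.Injective a ∧ Function.Injective c ∧
    ∀ i j, ![a i, c j] ∈ S

/-- **Pieces without `K_{s,t}`.** -/
theorem piece_bound {s t k : ℕ} (hs : 1 ≤ s) (hst : s ≤ t) {r α ε : ℝ} (hr : 0 ≤ r) (hα0 : 0 ≤ α)
    (hα : α * 2 ^ (k + 1) < k + 2 - r) (hε : 0 < ε) :
    ∃ δ : ℝ, 0 < δ ∧ ∃ m₀ : ℕ, ∀ m : ℕ, m₀ ≤ m → ∀ S : Set (Fin 2 → Fin m → Bool),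
      Piece r (δ * m) S → ¬ SetHasK s t S →
      (S.ncard : ℝ) ≤ (2:ℝ) ^ ((2 - (1 + 1 / s) * α + ε) * m) := by
  classical
  obtain ⟨δ, hδ, m₀, h⟩ := bip hs hst hr hα0 hα hε
  refine ⟨δ, hδ, m₀, ?_⟩
  rintro m hm S ⟨Z, _, κ, θ, b, C, h1, h2, h3, h4, h5, h6, h7⟩ hK
  have e1 : S = ↑(accepted C) := by
    ext x
    rw [h7, mem_coe]
    unfold accepted
    rw [mem_filter]
    simp
  rw [e1, Set.ncard_coe_finset]
  refine h m hm Z κ θ b h1 h2 C h3 h4 h5 h6 ?_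
  rintro ⟨a, c, ha, hc, hac⟩
  apply hK
  rw [e1]
  exact ⟨a, c, ha, hc, fun i j => mem_coe.2 (hac i j)⟩

/-- **Unions without `K_{s,t}`.** -/
theorem union_bound {s t k : ℕ} (hs : 1 ≤ s) (hst : s ≤ t) {r α ε : ℝ} (hr : 0 ≤ r) (hα0 : 0 ≤ α)
    (hα : α * 2 ^ (k + 1) < k + 2 - r) (hε : 0 < ε) :
    ∃ δ : ℝ, 0 < δ ∧ ∃ m₀ : ℕ, ∀ m : ℕ, m₀ ≤ m → ∀ (L : ℕ) (S : Set (Fin 2 → Fin m → Bool)) (T : ℝ),
      T ≤ δ * m → UnionOf r T L S → ¬ SetHasK s t S →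
      (S.ncard : ℝ) ≤ L * (2:ℝ) ^ ((2 - (1 + 1 / s) * α + ε) * m) := by
  obtain ⟨δ, hδ, m₀, h⟩ := piece_bound hs hst hr hα0 hα hε
  refine ⟨δ, hδ, m₀, ?_⟩
  rintro m hm L S T hT ⟨F, hF, rfl⟩ hK
  have h1 : (⋃ l, F l).ncard ≤ ∑ l, (F l).ncard := by
    have := Finset.set_ncard_biUnion_le (univ : Finset (Fin L)) F
    simpa using this
  have h2 : ∀ l, ((F l).ncard : ℝ) ≤ (2:ℝ) ^ ((2 - (1 + 1 / (s : ℝ)) * α + ε) * m) := by
    intro l
    refine h m hm (F l) ((hF l).mono hT) ?_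
    rintro ⟨a, c, ha, hc, hac⟩
    exact hK ⟨a, c, ha, hc, fun i j => Set.mem_iUnion.2 ⟨l, hac i j⟩⟩
  calc (((⋃ l, F l).ncard : ℕ) : ℝ) ≤ ∑ l, ((F l).ncard : ℝ) := by exact_mod_cast h1
    _ ≤ ∑ _l : Fin L, (2:ℝ) ^ ((2 - (1 + 1 / (s : ℝ)) * α + ε) * m) := sum_le_sum fun l _ => h2 l
    _ = _ := by rw [sum_const, card_univ, Fintype.card_fin, nsmul_eq_mul]

end Run7.h156.ES
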