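import Pool.Agent.Run7.h156.ES.Asym2
import Pool.Agent.Run7.h156.ES.Pieces
import Pool.Agent.N598.BT.Main

/-!
# Hypergraphs decided by circuits with few reads and small treewidth
-/

set_option autoImplicit false

open Finset

namespace Run7.h156.ES

open Run7.h156.CX
open Pool.Agent.N598.BT (Grid Sep Valid exists_sep sep_ne grid_edges pow_len)

/-- The product sets in a relation without grids and with small degrees of pairs are small. -/
theorem hyp_product {K g h m t d : ℕ}
    (nm : Fin K → (Fin g → Fin h → Bool) → (Fin m → Bool)) (hnm : ∀ j, Function.Injective (nm j))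
    (X : Fin g → Finset (Fin K → Fin h → Bool)) (S : Finset (Fin K → Fin m → Bool))
    (hX : ∀ x : Fin g → Fin K → Fin h → Bool, (∀ l, x l ∈ X l) →
      (fun j => nm j fun l => x l j) ∈ S) (i₀ i₁ : Fin K)
    (hdeg : ∀ a b : Fin m → Bool, (S.filter fun x => x i₀ = a ∧ x i₁ = b).card ≤ d)
    (hgrid : ∀ pt, ¬ Grid (fun i : Fin K => univ.filter fun p : Fin K × Fin m => p.1 = i) t univ
      {z : Fin K × Fin m → Bool | (fun i j => z (i, j)) ∈ S} pt) :
    (∏ l, (X l).card) ≤ (max t d) ^ g * (2 ^ h) ^ (g + K - 1) := by
  classical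
  have hU : Fintype.card (Fin h → Bool) = 2 ^ h := by
    rw [Fintype.card_fun, Fintype.card_bool, Fintype.card_fin]
  by_cases hne : ∃ l, (X l).card = 0
  · obtain ⟨l, hl⟩ := hne
    rw [prod_eq_zero (mem_univ l) hl]
    exact Nat.zero_le _
  push Not at hne
  have hne' : ∀ l, ∃ x, x ∈ X l := fun l => by
    obtain ⟨x, hx⟩ := card_pos.1 (Nat.pos_of_ne_zero (hne l))
    exact ⟨x, hx⟩
  choose x₀ hx₀ using hne'
  -- every set has small degrees of pairs
  have hA : ∀ l, (X l).card ≤ d * (2 ^ h * 2 ^ h) := by
    intro l
    have h1 := card_le_mul_card_image_of_maps_to (s := X l)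
      (t := (univ : Finset ((Fin h → Bool) × (Fin h → Bool)))) (f := fun x => (x i₀, x i₁))
      (fun x _ => mem_univ _) d ?_
    · rw [card_univ, Fintype.card_prod, hU] at h1
      exact h1
    · rintro ⟨u, v⟩ -
      refine le_trans ?_ (hdeg (nm i₀ fun l' => if l' = l then u else x₀ l' i₀)
        (nm i₁ fun l' => if l' = l then v else x₀ l' i₁))
      refine card_le_card_of_injOn
        (fun x j => nm j fun l' => (Function.update x₀ l x) l' j) ?_ ?_
      · intro x hx
        rw [mem_coe, mem_filter] at hx
        rw [mem_coe, mem_filter]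
        refine ⟨hX _ fun l' => ?_, ?_, ?_⟩
        · by_cases hl : l' = l
          · rw [hl, Function.update_self]
            exact hx.1
          · rw [Function.update_of_ne hl]
            exact hx₀ l'
        · show nm i₀ _ = nm i₀ _
          congr 1
          funext l'
          by_cases hl : l' = l
          · rw [hl, Function.update_self, if_pos rfl]
            exact (Prod.mk.injEq _ _ _ _ ▸ hx.2).1
          · rw [Function.update_of_ne hl, if_neg hl]
        · show nm i₁ _ = nm i₁ _
          congr 1
          funext l'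
          by_cases hl : l' = l
          · rw [hl, Function.update_self, if_pos rfl]
            exact (Prod.mk.injEq _ _ _ _ ▸ hx.2).2
          · rw [Function.update_of_ne hl, if_neg hl]
      · intro x _ x' _ hxx
        funext j
        have h2 := congrFun (hnm j (congrFun hxx j)) l
        simp only [Function.update_self] at h2
        exact h2
  -- there are few large sets
  obtain ⟨B, hB⟩ : ∃ B : Finset (Fin g), B = univ.filter fun l => t * 2 ^ h < (X l).card :=
    ⟨_, rfl⟩
  have hBm : ∀ l, l ∈ B ↔ t * 2 ^ h < (X l).card := fun l => by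
    rw [hB, mem_filter]
    simp
  have hBc : B.card < K := by
    by_contra hcon
    rw [not_lt] at hcon
    obtain ⟨σ⟩ : Nonempty (Fin K ↪ {l // l ∈ B}) := by
      rw [Function.Embedding.nonempty_iff_card_le, Fintype.card_fin, Fintype.card_coe]
      exact hcon
    obtain ⟨s, hs⟩ : ∃ s : Fin K → Fin g, ∀ i, s i = (σ i).1 := ⟨_, fun _ => rfl⟩
    have hsinj : Function.Injective s := by
      intro i i' hii
      rw [hs, hs] at hii
      exact σ.injective (Subtype.ext hii)
    have hbig : ∀ i, t * 2 ^ h < (X (s i)).card := by
      intro i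
      rw [hs]
      exact (hBm _).1 (σ i).2
    have hfam : ∀ i : Fin K, ∃ (x : Fin t → Fin K → Fin h → Bool) (c : Fin h → Bool),
        Function.Injective x ∧ (∀ a, x a ∈ X (s i)) ∧ ∀ a, x a i = c := by
      intro i
      obtain ⟨c, -, hc⟩ := exists_lt_card_fiber_of_mul_lt_card_of_maps_to
        (s := X (s i)) (t := univ) (f := fun x => x i) (n := t) (fun x _ => mem_univ _) (by
          rw [card_univ, hU, mul_comm]
          exact hbig i)
      obtain ⟨e⟩ : Nonempty (Fin t ↪ {x // x ∈ (X (s i)).filter fun x => x i = c}) := by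
        rw [Function.Embedding.nonempty_iff_card_le, Fintype.card_fin, Fintype.card_coe]
        exact hc.le
      exact ⟨fun a => (e a).1, c, fun a a' haa => e.injective (Subtype.ext haa),
        fun a => (mem_filter.1 (e a).2).1, fun a => (mem_filter.1 (e a).2).2⟩
    choose x c hx1 hx2 hx3 using hfam
    obtain ⟨Z, hZ⟩ : ∃ Z : (Fin K → Fin t) → Fin g → Fin K → Fin h → Bool, ∀ a, Z a =
      Function.extend s (fun i => x i (a i)) x₀ := ⟨_, fun _ => rfl⟩
    have hZ1 : ∀ a i, Z a (s i) = x i (a i) := fun a i => by
      rw [hZ, hsinj.extend_apply]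
    have hZ2 : ∀ a l, (¬ ∃ i, s i = l) → Z a l = x₀ l := fun a l hl => by
      rw [hZ, Function.extend_apply' _ _ _ hl]
    have hZX : ∀ a l, Z a l ∈ X l := by
      intro a l
      by_cases hl : ∃ i, s i = l
      · obtain ⟨i, rfl⟩ := hl
        rw [hZ1]
        exact hx2 i _
      · rw [hZ2 a l hl]
        exact hx₀ l
    refine hgrid (fun a p => nm p.1 (fun l => Z a l p.1) p.2) ⟨?_, ?_, ?_⟩
    · intro a
      exact hX (Z a) (hZX a)
    · intro a b
      constructor
      · intro hab i _
        apply hx1 i
        funext j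
        have h2 : (nm j fun l => Z a l j) = nm j fun l => Z b l j := by
          funext b'
          exact congrFun hab (j, b')
        have h3 := congrFun (hnm j h2) (s i)
        simp only [hZ1] at h3
        exact h3
      · intro hab
        have : a = b := funext fun i => hab i (mem_univ i)
        rw [this]
    · intro i _ a b hab v hv
      obtain ⟨j, b'⟩ := v
      rw [mem_filter] at hv
      have hj : j = i := hv.2
      subst hj
      show nm j (fun l => Z a l j) b' = nm j (fun l => Z b l j) b'
      congr 2
      funext l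
      by_cases hl : ∃ i, s i = l
      · obtain ⟨i, rfl⟩ := hl
        rw [hZ1, hZ1]
        by_cases hi : i = j
        · subst hi
          rw [hx3, hx3]
        · rw [hab i hi]
      · rw [hZ2 a l hl, hZ2 b l hl]
  have hbd : ∀ l, (X l).card ≤ max t d * (2 ^ h * if l ∈ B then 2 ^ h else 1) := by
    intro l
    split_ifs with hl
    · exact (hA l).trans (Nat.mul_le_mul_right _ (le_max_right _ _))
    · rw [hBm, not_lt] at hl
      rw [mul_one]
      exact hl.trans (Nat.mul_le_mul_right _ (le_max_left _ _))
  have h1 : (∏ l, (X l).card) ≤ ∏ l, (max t d * (2 ^ h * if l ∈ B then 2 ^ h else 1)) :=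
    prod_le_prod' fun l _ => hbd l
  refine h1.trans ?_
  rw [prod_mul_distrib, prod_mul_distrib, prod_const, prod_const, card_univ, Fintype.card_fin,
    prod_ite_mem, univ_inter, prod_const]
  refine Nat.mul_le_mul_left _ ?_
  rw [← pow_add]
  exact Nat.pow_le_pow_right (by positivity) (by omega)

end Run7.h156.ES
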