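import Pool.Agent.Run7.h156.ES.Hyp

/-!
# Hypergraphs decided by circuits with few reads and small treewidth: the bound
-/

set_option autoImplicit false

open Finset

namespace Run7.h156.ES

open Run7.h156.CX
open Pool.Agent.N598.BT (Grid Sep Valid exists_sep sep_ne grid_edges pow_len)

open Classical in
/-- The set `H` of sets of strings (the edges) is covered by `L` pieces: every member of a piece which
consists of `K` different strings is an edge (with its vertices in some order), and every edge occurs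
in some piece (in some order). Nothing is required of the `K`-tuples in the pieces in which a string
is repeated. -/
def CoveredH (r T : ℝ) (L K : ℕ) {m : ℕ} (H : Finset (Finset (Fin m → Bool))) : Prop :=
  ∃ F : Fin L → Set (Fin K → Fin m → Bool), (∀ l, Piece r T (F l)) ∧
    (∀ l, ∀ x ∈ F l, Function.Injective x → univ.image x ∈ H) ∧
      ∀ h ∈ H, ∃ l, ∃ x ∈ F l, univ.image x = h

theorem mem_inst {α β : Type} {i1 i2 : DecidableEq β} {s : Finset α} {f : α → β}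
    {H : Finset (Finset β)} (h : @Finset.image α β i2 f s ∈ H) : @Finset.image α β i1 f s ∈ H := by
  have e : i1 = i2 := Subsingleton.elim _ _
  rw [e]
  exact h

theorem biUnion_inst {β : Type} (i1 i2 : DecidableEq β) (G : Finset (Finset β)) :
    (@Finset.biUnion (Finset β) β i1 G id).card = (@Finset.biUnion (Finset β) β i2 G id).card := by
  have e : i1 = i2 := Subsingleton.elim _ _
  rw [e]

theorem image_inj {K m : ℕ} {p : Fin K → Fin K → Fin m} {c : Fin K → Fin K → Bool}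
    (hv : Valid p c) {x x' : Fin K → Fin m → Bool} (hx : ∀ v, Sep p c v (inp x v))
    (hx' : ∀ v, Sep p c v (inp x' v)) (h : univ.image x = univ.image x') : x = x' := by
  classical
  funext i
  have h4 : x i ∈ univ.image x' := by
    rw [← h]
    exact mem_image_of_mem _ (mem_univ i)
  obtain ⟨i', -, h5⟩ := mem_image.1 h4
  have h6 := sep_ne hv hx' hx (b := i') (b' := i) h5
  subst h6
  exact h5.symm

/-- the positions of the prescribed bits -/
def pos {K m : ℕ} (p : Fin K → Fin K → Fin m) : Finset (Fin K × Fin m) :=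
  (univ.filter fun q : Fin K × Fin K => q.1 ≠ q.2).image fun q => (q.1, p q.1 q.2)

theorem card_pos_le {K m : ℕ} (p : Fin K → Fin K → Fin m) : (pos p).card ≤ K * K := by
  refine card_image_le.trans ((card_filter_le _ _).trans ?_)
  rw [card_univ, Fintype.card_prod, Fintype.card_fin]

/-- the bound for a class of separated tuples -/
theorem class_bound {K t g k : ℕ} (d : ℕ) (hK : 2 ≤ K) (s0 : Fin t) (hg : 2 ≤ g) {r α ε : ℝ}
    (hr : 0 ≤ r) (hα0 : 0 ≤ α) (hα : α * (g : ℝ) ^ (k + 1) < g - (r - k) * (g - 1)) (hε : 0 < ε)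
    (𝒯 : Finset (Fin K → Fin t)) :
    ∃ δ : ℝ, 0 < δ ∧ ∃ m₀ : ℕ, ∀ (m : ℕ) (F : Set (Fin K → Fin m → Bool))
      (H : Finset (Finset (Fin m → Bool))) (p : Fin K → Fin K → Fin m) (c : Fin K → Fin K → Bool)
      (X : Finset (Fin K → Fin m → Bool)), m₀ ≤ m →
      Piece r (δ * m) F → Valid p c →
      (∀ x, x ∈ X ↔ x ∈ F ∧ ∀ v, Sep p c v (inp x v)) →
      (∀ x ∈ F, Function.Injective x → univ.image x ∈ H) →
      (∀ a b, a ≠ b → (H.filter fun h => a ∈ h ∧ b ∈ h).card ≤ d) →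
      (¬ ∃ G ⊆ H, G.card = 𝒯.card ∧ (G.biUnion id).card ≤
        ∑ b, (𝒯.image fun τ => Function.update τ b s0).card) →
      (X.card : ℝ) ≤ (max t d : ℕ) ^ g * (2:ℝ) ^ (((g:ℝ) - 1) * (K - 1)) *
        (2:ℝ) ^ ((K - ((g:ℝ) - 1) * (K - 1) * α + ε) * m) := by
  classical
  obtain ⟨δ, hδ, m₀, hm₀⟩ := core2 (K := K) (g := g) (k := k) (K * K) (by omega) hg hr hα0 hα hε
  refine ⟨δ, hδ, m₀, ?_⟩
  intro m F H p c X hm hF hv hX hFH hdeg hno
  obtain ⟨Z, _, κ, θ, b, C, h1, h2, h3, h4, h5, h6, h7⟩ := hF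
  obtain ⟨e, he⟩ : ∃ e : ℝ, e = ((g:ℝ) - 1) * (K - 1) := ⟨_, rfl⟩
  have hgR : (2:ℝ) ≤ g := by exact_mod_cast hg
  have hKR : (2:ℝ) ≤ K := by exact_mod_cast hK
  have he0 : 0 ≤ e := by
    rw [he]
    exact mul_nonneg (by linarith) (by linarith)
  rcases X.eq_empty_or_nonempty with hXe | ⟨x₁, hx₁⟩
  · rw [hXe, card_empty, Nat.cast_zero]
    positivity
  obtain ⟨hx₁F, hx₁S⟩ := (hX x₁).1 hx₁
  -- the class is given by prescribed bits
  have hSep : ∀ x : Fin K → Fin m → Bool, (∀ q ∈ pos p, inp x q = inp x₁ q) ↔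
      ∀ v, Sep p c v (inp x v) := by
    intro x
    constructor
    · intro h v b' hb hpv
      have hq : v ∈ pos p :=
        mem_image.2 ⟨(v.1, b'), mem_filter.2 ⟨mem_univ _, hb⟩, Prod.ext rfl hpv⟩
      rw [h v hq]
      exact hx₁S v b' hb hpv
    · intro h q hq
      obtain ⟨⟨b₁, b₂⟩, hb, rfl⟩ := mem_image.1 hq
      have hb' : b₁ ≠ b₂ := (mem_filter.1 hb).2
      rw [h (b₁, p b₁ b₂) b₂ hb' rfl, hx₁S (b₁, p b₁ b₂) b₂ hb' rfl]
  have hXP : X = acceptedP C (pos p) (inp x₁) := by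
    ext x
    unfold acceptedP
    rw [mem_filter, hX, hSep, h7]
    simp
  have hmemX : ∀ x ∈ X, (∀ v, Sep p c v (inp x v)) ∧ Function.Injective x ∧
      univ.image x ∈ H := by
    intro x hx
    obtain ⟨hx1, hx2⟩ := (hX x).1 hx
    have hinj : Function.Injective x := fun i i' hii => sep_ne hv hx2 hx2 (b := i) (b' := i') hii
    exact ⟨hx2, hinj, hFH x hx1 hinj⟩
  obtain ⟨nm, Y, g1, g2, g3⟩ := hm₀ m hm Z κ θ b h1 h2 C h3 h4 h5 h6 (pos p) (inp x₁)
    (card_pos_le p)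
  rw [← hXP] at g2 g3
  obtain ⟨i₀, hi₀⟩ : ∃ i₀ : Fin K, i₀ = ⟨0, by omega⟩ := ⟨_, rfl⟩
  obtain ⟨i₁, hi₁⟩ : ∃ i₁ : Fin K, i₁ = ⟨1, by omega⟩ := ⟨_, rfl⟩
  have hi : i₀ ≠ i₁ := by
    rw [hi₀, hi₁, Ne, Fin.mk.injEq]
    norm_num
  have hprod := hyp_product (d := d) (t := t) nm g1 Y X g2 i₀ i₁ ?_ ?_
  rotate_left
  · intro u v
    by_cases huv : u = v
    · have : (X.filter fun x => x i₀ = u ∧ x i₁ = v) = ∅ := by
        rw [filter_eq_empty_iff]
        rintro x hx ⟨e1, e2⟩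
        exact hi ((hmemX x hx).2.1 (by rw [e1, e2, huv]))
      rw [this, card_empty]
      exact Nat.zero_le _
    · refine (card_le_card_of_injOn (fun x => univ.image x) ?_ ?_).trans (hdeg u v huv)
      · intro x hx
        rw [mem_coe, mem_filter] at hx
        rw [mem_coe, mem_filter]
        refine ⟨(hmemX x hx.1).2.2, ?_, ?_⟩
        · rw [← hx.2.1]
          exact mem_image_of_mem _ (mem_univ _)
        · rw [← hx.2.2]
          exact mem_image_of_mem _ (mem_univ _)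
      · intro x hx x' hx' hxx
        rw [mem_coe, mem_filter] at hx hx'
        exact image_inj hv (hmemX x hx.1).1 (hmemX x' hx'.1).1 hxx
  · intro pt hpt
    obtain ⟨G, k1, k2, k3⟩ := grid_edges (H := H) s0 hv 
      (fun z hz v => (hmemX (fun i j => z (i, j)) hz).1 v) hpt
      (fun z hz => mem_inst (hmemX (fun i j => z (i, j)) hz).2.2) 𝒯
    exact hno ⟨G, k1, k2, le_of_eq_of_le (biUnion_inst _ _ _) k3⟩
  -- the estimate
  obtain ⟨h, hh⟩ : ∃ h, h = ⌊α * m⌋₊ := ⟨_, rfl⟩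
  obtain ⟨M, hM⟩ : ∃ M : ℝ, M = ((max t d : ℕ) : ℝ) ^ g := ⟨_, rfl⟩
  have hM0 : 0 ≤ M := by rw [hM]; positivity
  have hcast : ((∏ l, (Y l).card : ℕ) : ℝ) = ∏ l, ((Y l).card : ℝ) := by push_cast; rfl
  obtain ⟨Q, hQ⟩ : ∃ Q : ℕ, Q = ∏ l, (Y l).card := ⟨_, rfl⟩
  rw [← hcast, ← hQ] at g3
  rw [← hQ] at hprod
  clear hQ hcast
  rw [← hh] at g3 hprod
  have hhl : α * m - 1 ≤ h := by
    rw [hh]
    exact (Nat.sub_one_lt_floor _).le
  have e1 : (Q : ℝ) ≤ M * (2:ℝ) ^ ((h:ℝ) * (g + K - 1)) := by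
    have e2 : (Q : ℝ) ≤ ((max t d) ^ g * (2 ^ h) ^ (g + K - 1) : ℕ) := by
      exact_mod_cast hprod
    push_cast at e2
    refine e2.trans (le_of_eq ?_)
    rw [hM]
    push_cast
    congr 1
    rw [← pow_mul, ← Real.rpow_natCast]
    congr 1
    have : 1 ≤ g + K := by omega
    push_cast [Nat.cast_sub this]
    ring
  have e3 : (X.card : ℝ) * (2:ℝ) ^ ((g:ℝ) * K * h) ≤ (2:ℝ) ^ ((K + ε) * m) *
      (M * (2:ℝ) ^ ((h:ℝ) * (g + K - 1))) := by
    have e4 : (2:ℝ) ^ ((g:ℝ) * K * h) = 2 ^ (g * K * h) := by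
      rw [← Real.rpow_natCast]
      congr 1
      push_cast
      ring
    have e5 : (2:ℝ) ^ ((K + ε) * m) = 2 ^ (K * m) * (2:ℝ) ^ (ε * m) := by
      rw [← Real.rpow_natCast, ← Real.rpow_add (by norm_num)]
      congr 1
      push_cast
      ring
    rw [e4, e5]
    exact g3.trans (mul_le_mul_of_nonneg_left e1 (by positivity))
  rw [← he, ← hM]
  have e6 : (0:ℝ) < (2:ℝ) ^ ((g:ℝ) * K * h) := by positivity
  refine le_of_mul_le_mul_right (e3.trans ?_) e6
  have e7 : M * (2:ℝ) ^ e * (2:ℝ) ^ ((K - e * α + ε) * m) * (2:ℝ) ^ ((g:ℝ) * K * h) =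
      M * (2:ℝ) ^ (e + (K - e * α + ε) * m + g * K * h) := by
    rw [Real.rpow_add (by norm_num), Real.rpow_add (by norm_num)]
    ring
  have e8 : (2:ℝ) ^ ((K + ε) * m) * (M * (2:ℝ) ^ ((h:ℝ) * (g + K - 1))) =
      M * (2:ℝ) ^ ((K + ε) * m + h * (g + K - 1)) := by
    rw [Real.rpow_add (by norm_num)]
    ring
  rw [e7, e8]
  refine mul_le_mul_of_nonneg_left ?_ hM0
  refine Real.rpow_le_rpow_of_exponent_le (by norm_num) ?_
  have e9 : e * (α * m - 1) ≤ e * h := mul_le_mul_of_nonneg_left hhl he0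
  have e10 : (g:ℝ) * K * h = e * h + h * (g + K - 1) := by
    rw [he]
    ring
  rw [e10]
  nlinarith

end Run7.h156.ES
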