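import Pool.Agent.Run7.h156.ES.Hyp2

/-!
# Hypergraphs decided by circuits with few reads and small treewidth: the number of edges
-/

set_option autoImplicit false

open Finset

namespace Run7.h156.ES

open Run7.h156.CX
open Pool.Agent.N598.BT (Grid Sep Valid exists_sep sep_ne grid_edges pow_len)

theorem Piece.mono' {r T T' : ℝ} {K m : ℕ} {S : Set (Fin K → Fin m → Bool)} (h : Piece r T S)
    (hT : T ≤ T') : Piece r T' S := h.mono hT

/-- **The number of edges.** -/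
theorem hyp_main {K t g k : ℕ} (d : ℕ) (hK : 2 ≤ K) (s0 : Fin t) (hg : 2 ≤ g) {r α ε : ℝ}
    (hr : 0 ≤ r) (hα0 : 0 ≤ α) (hα : α * (g : ℝ) ^ (k + 1) < g - (r - k) * (g - 1)) (hε : 0 < ε)
    (𝒯 : Finset (Fin K → Fin t)) :
    ∃ δ : ℝ, 0 < δ ∧ ∃ m₀ : ℕ, ∀ (m L : ℕ) (H : Finset (Finset (Fin m → Bool))), m₀ ≤ m →
      (∀ h ∈ H, h.card = K) → CoveredH r (δ * m) L K H →
      (∀ a b, a ≠ b → (H.filter fun h => a ∈ h ∧ b ∈ h).card ≤ d) →
      (¬ ∃ G ⊆ H, G.card = 𝒯.card ∧ (G.biUnion id).card ≤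
        ∑ b, (𝒯.image fun τ => Function.update τ b s0).card) →
      (H.card : ℝ) ≤ L * (2:ℝ) ^ ((K - ((g:ℝ) - 1) * (K - 1) * α + ε) * m) := by
  classical
  have hε3 : 0 < ε / 3 := by positivity
  obtain ⟨δ, hδ, m₀, hm₀⟩ := class_bound d hK s0 hg hr hα0 hα hε3 𝒯
  obtain ⟨C₀, hC₀, hlen⟩ := pow_len (K * K) (ε / 3) hε3
  obtain ⟨M, hM⟩ : ∃ M : ℝ, M = ((max t d : ℕ) : ℝ) ^ g * (2:ℝ) ^ (((g:ℝ) - 1) * (K - 1)) :=
    ⟨_, rfl⟩
  have hM0 : 0 ≤ M := by rw [hM]; positivity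
  obtain ⟨A, hA⟩ : ∃ A : ℝ, A = C₀ * ((2:ℝ) ^ K) ^ K * M := ⟨_, rfl⟩
  have hA0 : 0 ≤ A := by rw [hA]; positivity
  obtain ⟨m₁, hm₁⟩ := exists_nat_gt (Real.logb 2 (A + 1) / (ε / 3))
  refine ⟨δ, hδ, max (max m₀ m₁) 1, ?_⟩
  intro m L H hm hH hcov hdeg hno
  have hm1 : 1 ≤ m := le_trans (le_max_right _ _) hm
  obtain ⟨F, hF1, hF2, hF3⟩ := hcov
  obtain ⟨X, hX⟩ : ∃ X : Fin L × (Fin K → Fin K → Fin m) × (Fin K → Fin K → Bool) →
      Finset (Fin K → Fin m → Bool), ∀ q, X q = if Valid q.2.1 q.2.2 then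
        univ.filter fun x => x ∈ F q.1 ∧ ∀ v, Sep q.2.1 q.2.2 v (inp x v) else ∅ :=
    ⟨_, fun _ => rfl⟩
  have hsub : H ⊆ univ.biUnion fun q => (X q).image fun x => univ.image x := by
    intro h hh
    obtain ⟨l, x, hx, hxh⟩ := hF3 h hh
    have hxh' : univ.image x = h := by
      rw [← hxh]
    have hinj : Function.Injective x := by
      have h2 : (univ.image x).card = (univ : Finset (Fin K)).card := by
        rw [hxh', hH h hh, card_univ, Fintype.card_fin]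
      intro i i' hii
      exact (card_image_iff.1 h2) (mem_coe.2 (mem_univ i)) (mem_coe.2 (mem_univ i')) hii
    obtain ⟨p, c, hv, hs⟩ := exists_sep hinj (by omega : 0 < m)
    refine mem_biUnion.2 ⟨(l, p, c), mem_univ _, mem_image.2 ⟨x, ?_, hxh'⟩⟩
    rw [hX, if_pos hv]
    exact mem_filter.2 ⟨mem_univ x, hx, hs⟩
  have hcard : Fintype.card (Fin L × (Fin K → Fin K → Fin m) × (Fin K → Fin K → Bool)) =
      L * (m ^ K) ^ K * (2 ^ K) ^ K := by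
    simp only [Fintype.card_prod, Fintype.card_fun, Fintype.card_fin, Fintype.card_bool]
    ring
  obtain ⟨γ, hγ⟩ : ∃ γ : ℝ, γ = K - ((g:ℝ) - 1) * (K - 1) * α := ⟨_, rfl⟩
  have hXb : ∀ q, ((X q).card : ℝ) ≤ M * (2:ℝ) ^ ((γ + ε / 3) * m) := by
    intro q
    by_cases hv : Valid q.2.1 q.2.2
    · rw [hM, hγ]
      refine hm₀ m (F q.1) H q.2.1 q.2.2 (X q)
        (le_trans (le_trans (le_max_left _ _) (le_max_left _ _)) hm) (hF1 q.1) hv ?_ ?_ hdeg hno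
      · intro x
        rw [hX, if_pos hv, mem_filter]
        simp
      · intro x hx hinj
        exact mem_inst (hF2 q.1 x hx hinj)
    · rw [hX, if_neg hv, card_empty, Nat.cast_zero]
      positivity
  have h1 : (H.card : ℝ) ≤ (L * (m ^ K) ^ K * (2 ^ K) ^ K : ℕ) * (M * (2:ℝ) ^ ((γ + ε / 3) * m)) := by
    have h2 : H.card ≤ ∑ q, (X q).card :=
      (card_le_card hsub).trans (card_biUnion_le.trans (sum_le_sum fun q _ => card_image_le))
    have h3 : (H.card : ℝ) ≤ ∑ q, ((X q).card : ℝ) := by exact_mod_cast h2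
    refine h3.trans ((sum_le_sum fun q _ => hXb q).trans (le_of_eq ?_))
    rw [sum_const, card_univ, hcard, nsmul_eq_mul]
  have h4 : ((m:ℝ) ^ K) ^ K ≤ C₀ * (2:ℝ) ^ (ε / 3 * m) := by
    have h5 := hlen m
    rw [pow_mul] at h5
    refine h5.trans (le_of_eq ?_)
    congr 1
    rw [← Real.rpow_natCast, ← Real.rpow_mul (by norm_num)]
    congr 1
    ring
  have h6 : A ≤ (2:ℝ) ^ (ε / 3 * m) := by
    have h7 : A + 1 = (2:ℝ) ^ Real.logb 2 (A + 1) :=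
      (Real.rpow_logb (by norm_num) (by norm_num) (by linarith)).symm
    have h8 : Real.logb 2 (A + 1) ≤ ε / 3 * m := by
      have h9 : (m₁ : ℝ) ≤ m := by
        exact_mod_cast le_trans (le_trans (le_max_right _ _) (le_max_left _ _)) hm
      rw [div_lt_iff₀ hε3] at hm₁
      nlinarith
    calc A ≤ A + 1 := by linarith
      _ = (2:ℝ) ^ Real.logb 2 (A + 1) := h7
      _ ≤ _ := Real.rpow_le_rpow_of_exponent_le (by norm_num) h8
  refine h1.trans ?_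
  rw [← hγ]
  push_cast
  calc (L:ℝ) * ((m:ℝ) ^ K) ^ K * ((2:ℝ) ^ K) ^ K * (M * (2:ℝ) ^ ((γ + ε / 3) * m))
      ≤ L * (C₀ * (2:ℝ) ^ (ε / 3 * m)) * ((2:ℝ) ^ K) ^ K * (M * (2:ℝ) ^ ((γ + ε / 3) * m)) := by
        gcongr
    _ = L * A * ((2:ℝ) ^ (ε / 3 * m) * (2:ℝ) ^ ((γ + ε / 3) * m)) := by
        rw [hA]
        ring
    _ ≤ L * (2:ℝ) ^ (ε / 3 * m) * ((2:ℝ) ^ (ε / 3 * m) * (2:ℝ) ^ ((γ + ε / 3) * m)) := by
        gcongr
    _ = L * (2:ℝ) ^ ((γ + ε) * m) := by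
        rw [mul_assoc, ← Real.rpow_add (by norm_num), ← Real.rpow_add (by norm_num)]
        congr 2
        ring

/-- The number of groups: `r < K / (K - 1)` reads are allowed. -/
theorem exists_g_hyp {K : ℕ} (hK : 2 ≤ K) {r : ℝ} (hr : 1 ≤ r) (h : r * (K - 1) < K) :
    ∃ g : ℕ, 2 ≤ g ∧ ∃ α η : ℝ, 0 ≤ α ∧ 0 < η ∧
      α * (g : ℝ) ^ (1 + 1) < g - (r - (1 : ℕ)) * (g - 1) ∧
      (K - ((g:ℝ) - 1) * (K - 1) * α + η) ≤ 2 - η := by
  have hKR : (2:ℝ) ≤ K := by exact_mod_cast hK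
  obtain ⟨s, hs⟩ : ∃ s : ℝ, s = K - r * (K - 1) := ⟨_, rfl⟩
  have hs0 : 0 < s := by rw [hs]; linarith
  obtain ⟨N, hN⟩ := exists_nat_gt ((K - 1) * (2 - r) / s)
  rw [div_lt_iff₀ hs0] at hN
  have hr2 : r < 2 := by
    have : (K:ℝ) ≤ 2 * (K - 1) := by linarith
    by_contra hcon
    push Not at hcon
    nlinarith
  refine ⟨N + 2, by omega, ?_⟩
  have hN0 : (0:ℝ) ≤ N := Nat.cast_nonneg _
  obtain ⟨G, hG⟩ : ∃ G : ℝ, G = ((N + 2 : ℕ) : ℝ) := ⟨_, rfl⟩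
  have hG' : G = N + 2 := by rw [hG]; push_cast; ring
  rw [← hG]
  have hG2 : 2 ≤ G := by rw [hG']; linarith
  obtain ⟨β, hβ⟩ : ∃ β : ℝ, β = (G - (r - 1) * (G - 1)) / G ^ 2 := ⟨_, rfl⟩
  have hβ1 : (2 - r) / G ≤ β := by
    rw [hβ, div_le_div_iff₀ (by linarith) (by positivity)]
    nlinarith
  have hβ2 : (K:ℝ) - 2 < (G - 1) * (K - 1) * β := by
    have e1 : (K:ℝ) - 2 < (G - 1) * (K - 1) * ((2 - r) / G) := by
      rw [mul_div_assoc', lt_div_iff₀ (by linarith)]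
      have e2 : (K - 1) * (2 - r) < G * s := by
        rw [hG']
        nlinarith
      rw [hs] at e2
      nlinarith
    have e3 : (G - 1) * (K - 1) * ((2 - r) / G) ≤ (G - 1) * (K - 1) * β :=
      mul_le_mul_of_nonneg_left hβ1 (mul_nonneg (by linarith) (by linarith))
    linarith
  obtain ⟨E, hE⟩ : ∃ E : ℝ, E = (G - 1) * (K - 1) := ⟨_, rfl⟩
  have hE0 : 0 < E := by
    rw [hE]
    exact mul_pos (by linarith) (by linarith)
  rw [← hE] at hβ2 ⊢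
  have hβ0 : 0 ≤ β := le_trans (by
    have : 0 ≤ 2 - r := by linarith
    positivity) hβ1
  obtain ⟨α, hα⟩ : ∃ α : ℝ, α = ((K - 2) / E + β) / 2 := ⟨_, rfl⟩
  have hlt : (K - 2) / E < β := by
    rw [div_lt_iff₀ hE0]
    linarith
  have hlo0 : 0 ≤ (K - 2) / E := div_nonneg (by linarith) hE0.le
  have hαβ : α < β := by rw [hα]; linarith
  have hα1 : (K - 2) / E < α := by rw [hα]; linarith
  rw [div_lt_iff₀ hE0] at hα1
  refine ⟨α, (E * α - (K - 2)) / 2, by rw [hα]; linarith, by linarith, ?_, by linarith⟩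
  rw [hβ, lt_div_iff₀ (by positivity)] at hαβ
  push_cast
  exact hαβ

end Run7.h156.ES
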