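import Pool.Agent.Run7.h156.ES.Hostr

/-!
# Labelled graphs without `K_{r,r}`
-/

set_option autoImplicit false

open Finset

namespace Run7.h156.ES

open Pool.Agent.Results.MP_d08c72_co.TensorNetworks (NoKrr)

theorem noKrr_map' {n : ℕ} {G : SimpleGraph (Fin n)} {r : ℕ} (hr : 1 ≤ r) (h1 : NoKrr r G)
    {α : Type} {k : ℕ} (lab : Fin n ↪ (Fin k → α)) : NoKrr r (G.map lab) := by
  classical
  rintro ⟨φ⟩
  apply h1
  have hran : ∀ x : Fin r ⊕ Fin r, ∃ u : Fin n, lab u = φ x := by
    intro x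
    have i0 : Fin r := ⟨0, hr⟩
    rcases x with i | i
    · have := φ.toHom.map_rel (a := Sum.inl i) (b := Sum.inr i0) (by simp)
      obtain ⟨u, v, _, hu, _⟩ := (SimpleGraph.map_adj lab G _ _).1 this
      exact ⟨u, hu⟩
    · have := φ.toHom.map_rel (a := Sum.inr i) (b := Sum.inl i0) (by simp)
      obtain ⟨u, v, _, hu, _⟩ := (SimpleGraph.map_adj lab G _ _).1 this
      exact ⟨u, hu⟩
  choose g hg using hran
  refine ⟨⟨⟨g, ?_⟩, ?_⟩⟩
  · intro x y hxy
    have := φ.toHom.map_rel hxy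
    obtain ⟨u, v, huv, hu, hv⟩ := (SimpleGraph.map_adj lab G _ _).1 this
    have e1 : u = g x := lab.injective (by rw [hg]; exact hu)
    have e2 : v = g y := lab.injective (by rw [hg]; exact hv)
    rw [← e1, ← e2]
    exact huv
  · intro x y hxy
    apply φ.injective
    have : lab (g x) = lab (g y) := congrArg lab hxy
    rwa [hg, hg] at this

end Run7.h156.ES
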